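import Pool.Agent.R652.TF.Defs

/-!
# Thompson's group F: the action on sequences of reduced trees
-/

namespace Pool.Agent.R652.TF

open Pool.Agent.R652.CA List

theorem spl_joi (l r : CT) : spl (joi l r) = (l, r) := by
  unfold joi
  split
  · rfl
  · rfl

theorem joi_spl {t : CT} (ht : Red t) : joi (spl t).1 (spl t).2 = t := by
  cases t with
  | lf a b => rfl
  | nd l r =>
    have h := ht.2.2
    change joi l r = CT.nd l r
    unfold joi
    split
    · rename_i a b
      exact absurd ⟨a, b, rfl, rfl⟩ h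
    · rfl

theorem red_spl {t : CT} (ht : Red t) : Red (spl t).1 ∧ Red (spl t).2 := by
  cases t with
  | lf a b => exact ⟨trivial, trivial⟩
  | nd l r => exact ⟨ht.1, ht.2.1⟩

theorem red_joi {l r : CT} (hl : Red l) (hr : Red r) : Red (joi l r) := by
  unfold joi
  split
  · trivial
  · rename_i h
    refine ⟨hl, hr, ?_⟩
    rintro ⟨a, b, h1, h2⟩
    exact h a b h1 h2

theorem red_splS (i : ℕ) {s : ℕ → CT} (hs : ∀ k, Red (s k)) (k : ℕ) : Red (splS i s k) := by
  unfold splS
  split_ifs
  · exact hs k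
  · exact (red_spl (hs i)).1
  · exact (red_spl (hs i)).2
  · exact hs (k - 1)

theorem red_joiS (i : ℕ) {s : ℕ → CT} (hs : ∀ k, Red (s k)) (k : ℕ) : Red (joiS i s k) := by
  unfold joiS
  split_ifs
  · exact hs k
  · exact red_joi (hs i) (hs (i + 1))
  · exact hs (k + 1)

theorem splS_joiS (i : ℕ) (s : ℕ → CT) : splS i (joiS i s) = s := by
  funext k
  unfold splS
  split_ifs with h1 h2 h3
  · unfold joiS
    rw [if_pos h1]
  · have : joiS i s i = joi (s i) (s (i + 1)) := by
      unfold joiS
      rw [if_neg (lt_irrefl i), if_pos rfl]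
    rw [this, spl_joi, h2]
  · have : joiS i s i = joi (s i) (s (i + 1)) := by
      unfold joiS
      rw [if_neg (lt_irrefl i), if_pos rfl]
    rw [this, spl_joi, h3]
  · unfold joiS
    rw [if_neg (by omega), if_neg (by omega)]
    congr 1
    omega

theorem joiS_splS (i : ℕ) {s : ℕ → CT} (hs : ∀ k, Red (s k)) : joiS i (splS i s) = s := by
  funext k
  unfold joiS
  split_ifs with h1 h2
  · unfold splS
    rw [if_pos h1]
  · have e1 : splS i s i = (spl (s i)).1 := by
      unfold splS
      rw [if_neg (lt_irrefl i), if_pos rfl]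
    have e2 : splS i s (i + 1) = (spl (s i)).2 := by
      unfold splS
      rw [if_neg (by omega), if_neg (by omega), if_pos rfl]
    rw [e1, e2, joi_spl (hs i), h2]
  · unfold splS
    rw [if_neg (by omega), if_neg (by omega), if_neg (by omega)]
    rfl

theorem splS_comm {i j : ℕ} (hij : i < j) (s : ℕ → CT) :
    splS i (splS j s) = splS (j + 1) (splS i s) := by
  have a1 : ∀ (m : ℕ) (u : ℕ → CT) (k : ℕ), k < m → splS m u k = u k := by
    intro m u k h
    unfold splS
    rw [if_pos h]
  have a2 : ∀ (m : ℕ) (u : ℕ → CT), splS m u m = (spl (u m)).1 := by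
    intro m u
    unfold splS
    rw [if_neg (lt_irrefl m), if_pos rfl]
  have a3 : ∀ (m : ℕ) (u : ℕ → CT), splS m u (m + 1) = (spl (u m)).2 := by
    intro m u
    unfold splS
    rw [if_neg (by omega), if_neg (by omega), if_pos rfl]
  have a4 : ∀ (m : ℕ) (u : ℕ → CT) (k : ℕ), m + 1 < k → splS m u k = u (k - 1) := by
    intro m u k h
    unfold splS
    rw [if_neg (by omega), if_neg (by omega), if_neg (by omega)]
  funext k
  rcases lt_trichotomy k i with h | h | h
  · rw [a1 i _ k h, a1 j _ k (by omega), a1 (j + 1) _ k (by omega), a1 i _ k h]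
  · subst h
    rw [a2, a1 j _ k hij, a1 (j + 1) _ k (by omega), a2]
  · rcases Nat.lt_or_ge (i + 1) k with h' | h'
    · rw [a4 i _ k h']
      rcases lt_trichotomy (k - 1) j with g | g | g
      · rw [a1 j _ (k - 1) g, a1 (j + 1) _ k (by omega), a4 i _ k h']
      · have e : k = j + 1 := by omega
        subst e
        rw [Nat.add_sub_cancel, a2, a2, a4 i _ (j + 1) h', Nat.add_sub_cancel]
      · rcases Nat.lt_or_ge (j + 1) (k - 1) with g' | g'
        · rw [a4 j _ (k - 1) g', a4 (j + 1) _ k (by omega), a4 i _ (k - 1) (by omega)]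
        · have e : k = j + 1 + 1 := by omega
          subst e
          rw [Nat.add_sub_cancel, a3, a3, a4 i _ (j + 1) (by omega), Nat.add_sub_cancel]
    · have e : k = i + 1 := by omega
      subst e
      rw [a3, a1 j _ i hij, a1 (j + 1) _ (i + 1) (by omega), a3]

/-- the permutation `splS i` of reduced sequences -/
def SP (i : ℕ) : Equiv.Perm RS where
  toFun s := ⟨splS i s.1, red_splS i s.2⟩
  invFun s := ⟨joiS i s.1, red_joiS i s.2⟩
  left_inv s := Subtype.ext (joiS_splS i s.2)
  right_inv s := Subtype.ext (splS_joiS i s.1)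

theorem SP_comm {i j : ℕ} (hij : i < j) : SP i * SP j = SP (j + 1) * SP i := by
  apply Equiv.ext
  intro s
  exact Subtype.ext (splS_comm hij s.1)

/-- sequences of leaves -/
def lfS (s : ℕ → ℕ × ℕ) : RS := ⟨fun k => CT.lf (s k).1 (s k).2, fun _ => trivial⟩

theorem SP_lfS (i : ℕ) (s : ℕ → ℕ × ℕ) : SP i (lfS s) = lfS (exl i s) := by
  apply Subtype.ext
  funext k
  change splS i (fun k => CT.lf (s k).1 (s k).2) k = CT.lf (exl i s k).1 (exl i s k).2
  unfold splS exl
  split_ifs <;> rfl

theorem lfS_inj {s t : ℕ → ℕ × ℕ} (h : lfS s = lfS t) : s = t := by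
  funext k
  have h1 := congrFun (congrArg Subtype.val h) k
  change CT.lf (s k).1 (s k).2 = CT.lf (t k).1 (t k).2 at h1
  injection h1 with h2 h3
  exact Prod.ext h2 h3

theorem act_thm (hH : StmHom) (hF : StmFrac) (hP : StmPos) : StmAct := by
  obtain ⟨θ, hθ⟩ := hH (Equiv.Perm RS) inferInstance (fun i => (SP i)⁻¹) (by
    intro i j hij
    rw [← mul_inv_rev, ← mul_inv_rev, SP_comm hij])
  have h1 : ∀ (s : RS) (i : ℕ), θ (xx i)⁻¹ s = SP i s := by
    intro s i
    rw [map_inv, hθ, inv_inv]
  have h2 : ∀ (s : RS) (i : ℕ), θ ((xx i)⁻¹)⁻¹ s = (SP i)⁻¹ s := by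
    intro s i
    rw [inv_inv, hθ]
  have hmul : ∀ (s : RS) (g h : FG), θ (g * h)⁻¹ s = θ h⁻¹ (θ g⁻¹ s) := by
    intro s g h
    rw [mul_inv_rev, map_mul]
    rfl
  have hone : ∀ s : RS, θ (1 : FG)⁻¹ s = s := by
    intro s
    rw [inv_one, map_one]
    rfl
  have hpw : ∀ (p : List ℕ) (s : ℕ → ℕ × ℕ),
      θ (pw p)⁻¹ (lfS s) = lfS (p.foldl (fun s i => exl i s) s) := by
    intro p
    induction p with
    | nil =>
      intro s
      exact hone _
    | cons i p ih =>
      intro s
      have e : pw (i :: p) = xx i * pw p := by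
        unfold pw
        rw [List.map_cons, List.prod_cons]
      rw [e, hmul, h1, SP_lfS, ih]
      rfl
  refine ⟨fun s g => θ g⁻¹ s, hone, hmul, ?_, ?_, ?_⟩
  · intro s i
    simp only [h1]
    rfl
  · intro s i
    simp only [h2]
    rfl
  · intro g hg
    simp only at hg
    obtain ⟨p, q, rfl⟩ := hF g
    have e1 : θ (pw p)⁻¹ base = θ (pw q)⁻¹ base := by
      have e2 := hmul base (pw p * (pw q)⁻¹) (pw q)
      rw [inv_mul_cancel_right, hg] at e2
      exact e2
    have eb : base = lfS (fun _ => (0, 0)) := rfl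
    rw [eb, hpw, hpw] at e1
    have e3 : lb p = lb q := lfS_inj e1
    rw [hP p q e3, mul_inv_cancel]

end Pool.Agent.R652.TF
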