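import Pool.Agent.R652.TF.Defs

set_option autoImplicit false

/-!
TF-APD: append a trivial tree to a tape, drop a trivial last tree (for MP_7161f1_al).
-/

namespace Pool.Agent.R652.TF

open Pool.Agent.R652.CA List

namespace Apd

/-- no separator inside the tour of a tree, no end cell either -/
theorem tour_info (t : CT) : ∀ d, ∀ x ∈ tourC t d, x.1 ≠ Inf.sep ∧ x.1 ≠ Inf.en := by
  induction t with
  | lf a b =>
    intro d x hx
    simp only [tourC, mem_append, mem_cons] at hx
    rcases hx with h | h | h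
    · rw [eq_of_mem_replicate h]; simp
    · rw [h]; simp
    · rw [eq_of_mem_replicate h]; simp
  | nd l r ihl ihr =>
    intro d x hx
    simp only [tourC, mem_append, mem_cons, not_mem_nil, or_false] at hx
    rcases hx with h | h | h | h | h
    · rw [h]; simp
    · exact ihl _ x h
    · rw [h]; simp
    · exact ihr _ x h
    · rw [h]; simp

theorem tours_en (L : List CT) : ∀ x ∈ toursC L, x.1 ≠ Inf.en := by
  intro x hx
  rw [toursC, mem_flatMap] at hx
  obtain ⟨t, _, h⟩ := hx
  rw [mem_append, mem_singleton] at h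
  rcases h with h | h
  · exact (tour_info t 0 x h).2
  · rw [h]; decide

theorem tours_append (L M : List CT) : toursC (L ++ M) = toursC L ++ toursC M := by
  rw [toursC, flatMap_append]; rfl

theorem tours_l0 : toursC [l0] = [(Inf.lf, 0), (Inf.sep, 0)] := by
  simp [toursC, tourC]

/-! ### Append -/

/-- the transducer which replaces the first end cell -/
def stA : Bool → Inf × Fin 64 × Bool → Bool × List (Inf × ℤ)
  | false, (Inf.en, _, _) => (true, [(Inf.lf, 0), (Inf.sep, 0), (Inf.en, 0)])
  | false, (i, _, _) => (false, [(i, 0)])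
  | true, (i, _, _) => (true, [(i, 0)])

theorem stA_false (i : Inf) (h : i ≠ Inf.en) (d : Fin 64) (z : Bool) :
    stA false (i, d, z) = (false, [(i, 0)]) := by
  cases i <;> first | rfl | exact absurd rfl h

theorem trunA_false (w v : List (Inf × ℕ)) (h : ∀ x ∈ w, x.1 ≠ Inf.en) :
    trun stA false (w ++ v) = w ++ trun stA false v := by
  induction w with
  | nil => rfl
  | cons x w ih =>
    rw [cons_append, trun, stA_false x.1 (h x mem_cons_self)]
    rw [ih fun y hy => h y (mem_cons_of_mem _ hy)]
    simp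

theorem trunA_true (w : List (Inf × ℕ)) : trun stA true w = w := by
  induction w with
  | nil => rfl
  | cons x w ih =>
    rw [trun]
    simp only [stA]
    rw [ih]
    simp

theorem trunA_len (w : List (Inf × ℕ)) :
    w.length ≤ (trun stA false w).length ∧ (trun stA false w).length ≤ w.length + 2 := by
  induction w with
  | nil => simp [trun]
  | cons x w ih =>
    obtain ⟨i, d⟩ := x
    by_cases h : i = Inf.en
    · subst h
      rw [trun]
      simp only [stA]
      rw [trunA_true]
      simp
    · rw [trun]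
      simp only
      rw [stA_false i h]
      simp only [map_cons, map_nil, length_append, length_cons, length_nil]
      omega

/-! ### Drop -/

/-- states: normal, after a separator, holding `lf`, holding `lf sep`, finished -/
inductive DS
  | s0
  | s1
  | s2
  | s3
  | s4
  deriving DecidableEq

instance : Fintype DS :=
  ⟨{DS.s0, DS.s1, DS.s2, DS.s3, DS.s4}, by intro x; cases x <;> decide⟩

open DS

/-- new state after reading a letter, nothing being held, and output -/
def stD : DS → Inf × Fin 64 × Bool → DS × List (Inf × ℤ)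
  | s0, (Inf.sep, _, _) => (s1, [(Inf.sep, 0)])
  | s0, (i, _, _) => (s0, [(i, 0)])
  | s1, (Inf.lf, _, _) => (s2, [])
  | s1, (Inf.sep, _, _) => (s1, [(Inf.sep, 0)])
  | s1, (i, _, _) => (s0, [(i, 0)])
  | s2, (Inf.sep, _, _) => (s3, [])
  | s2, (i, _, _) => (s0, [(Inf.lf, 0), (i, 0)])
  | s3, (Inf.en, _, _) => (s4, [(Inf.en, 0)])
  | s3, (Inf.lf, _, _) => (s2, [(Inf.lf, 0), (Inf.sep, 0)])
  | s3, (Inf.sep, _, _) => (s1, [(Inf.lf, 0), (Inf.sep, 0), (Inf.sep, 0)])
  | s3, (i, _, _) => (s0, [(Inf.lf, 0), (Inf.sep, 0), (i, 0)])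
  | s4, (i, _, _) => (s4, [(i, 0)])

/-- number of cells held (for `s4`: dropped) -/
def hd : DS → ℕ
  | s0 => 0
  | s1 => 0
  | s2 => 1
  | s3 => 2
  | s4 => 2

theorem stD_len (s : DS) (a : Inf × Fin 64 × Bool) :
    (stD s a).2.length + hd (stD s a).1 = 1 + hd s := by
  obtain ⟨i, d, z⟩ := a
  cases s <;> cases i <;> rfl

theorem stD_zero (s : DS) (a : Inf × Fin 64 × Bool) : ∀ y ∈ (stD s a).2, y.2 = 0 := by
  obtain ⟨i, d, z⟩ := a
  cases s <;> cases i <;> simp [stD]

theorem stA_zero (s : Bool) (a : Inf × Fin 64 × Bool) : ∀ y ∈ (stA s a).2, y.2 = 0 := by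
  obtain ⟨i, d, z⟩ := a
  cases s <;> cases i <;> simp [stA]

theorem trunD_len (w : List (Inf × ℕ)) : ∀ s : DS,
    w.length + hd s ≤ (trun stD s w).length + 2 ∧ (trun stD s w).length ≤ w.length + hd s := by
  induction w with
  | nil =>
    intro s
    cases s <;> simp [trun, hd]
  | cons x w ih =>
    intro s
    rw [trun]
    have h1 := stD_len s (x.1, md x.2, decide (x.2 = 0))
    have h2 := ih (stD s (x.1, md x.2, decide (x.2 = 0))).1
    rw [length_append, length_map, length_cons]
    omega

theorem trunD_s0 (w v : List (Inf × ℕ)) (h : ∀ x ∈ w, x.1 ≠ Inf.sep) :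
    trun stD s0 (w ++ v) = w ++ trun stD s0 v := by
  induction w with
  | nil => rfl
  | cons x w ih =>
    obtain ⟨i, d⟩ := x
    have hi : i ≠ Inf.sep := h (i, d) mem_cons_self
    have e : ∀ m z, stD s0 (i, m, z) = (s0, [(i, 0)]) := by
      intro m z
      cases i <;> first | rfl | exact absurd rfl hi
    rw [cons_append, trun]
    simp only
    rw [e, ih fun y hy => h y (mem_cons_of_mem _ hy)]
    simp

theorem trunD_s4 (w : List (Inf × ℕ)) : trun stD s4 w = w := by
  induction w with
  | nil => rfl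
  | cons x w ih =>
    rw [trun]
    simp only [stD]
    rw [ih]
    simp

/-- the cells held -/
def pend : DS → List (Inf × ℕ)
  | s0 => []
  | s1 => []
  | s2 => [(Inf.lf, 0)]
  | s3 => [(Inf.lf, 0), (Inf.sep, 0)]
  | s4 => []

theorem sep_s0 (rest : List (Inf × ℕ)) :
    trun stD s0 ((Inf.sep, 0) :: rest) = (Inf.sep, 0) :: trun stD s1 rest := by
  rw [trun]; simp [stD]

/-- first cell of a nontrivial tree -/
theorem tree_cons (c : Inf) (w rest : List (Inf × ℕ)) (hc : c = Inf.po ∨ c = Inf.qo)
    (hw : ∀ x ∈ w, x.1 ≠ Inf.sep) (s : DS) (hs : s = s1 ∨ s = s3) :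
    trun stD s (((c, 0) :: w) ++ (Inf.sep, 0) :: rest) =
      pend s ++ (((c, 0) :: w) ++ (Inf.sep, 0) :: trun stD s1 rest) := by
  rw [cons_append, trun]
  have h := trunD_s0 w ((Inf.sep, 0) :: rest) hw
  rw [sep_s0] at h
  rcases hc with rfl | rfl <;> rcases hs with rfl | rfl <;> simp [stD, h, pend]

theorem tree (t : CT) (s : DS) (hs : s = s1 ∨ s = s3) :
    ∃ (X : List (Inf × ℕ)) (s' : DS), (s' = s1 ∨ s' = s3) ∧
      (∀ rest, trun stD s ((tourC t 0 ++ [(Inf.sep, 0)]) ++ rest) = X ++ trun stD s' rest) ∧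
      pend s ++ (tourC t 0 ++ [(Inf.sep, 0)]) = X ++ pend s' := by
  have hw := tour_info t 0
  rcases t with ⟨a, b⟩ | ⟨l, r⟩
  · rcases a with _ | a
    · rcases b with _ | b
      · refine ⟨pend s, s3, Or.inr rfl, ?_, ?_⟩
        · intro rest
          rcases hs with rfl | rfl <;> simp [tourC, trun, stD, pend]
        · simp [tourC, pend]
      · refine ⟨pend s ++ (tourC (CT.lf 0 (b + 1)) 0 ++ [(Inf.sep, 0)]), s1, Or.inl rfl, ?_, ?_⟩
        · intro rest
          have h := trunD_s0 (replicate b (Inf.pc, 0)) ((Inf.sep, 0) :: rest) (by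
            intro x hx; rw [eq_of_mem_replicate hx]; decide)
          rw [sep_s0] at h
          rcases hs with rfl | rfl <;> simp [tourC, trun, stD, pend, replicate_succ, h]
        · simp [pend]
    · refine ⟨pend s ++ (tourC (CT.lf (a + 1) b) 0 ++ [(Inf.sep, 0)]), s1, Or.inl rfl, ?_, ?_⟩
      · intro rest
        have e : tourC (CT.lf (a + 1) b) 0 = (Inf.po, 0) ::
            (replicate a (Inf.po, 0) ++ (Inf.lf, 0) :: replicate b (Inf.pc, 0)) := by
          simp [tourC, replicate_succ]
        rw [e] at hw ⊢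
        have h := tree_cons Inf.po _ rest (Or.inl rfl)
          (fun x hx => (hw x (mem_cons_of_mem _ hx)).1) s hs
        simpa using h
      · simp [pend]
  · refine ⟨pend s ++ (tourC (CT.nd l r) 0 ++ [(Inf.sep, 0)]), s1, Or.inl rfl, ?_, ?_⟩
    · intro rest
      rw [tourC] at hw ⊢
      have h := tree_cons Inf.qo _ rest (Or.inr rfl)
        (fun x hx => (hw x (mem_cons_of_mem _ hx)).1) s hs
      simpa using h
    · simp [pend]

theorem tours (L : List CT) : ∀ s : DS, (s = s1 ∨ s = s3) →
    ∃ (X : List (Inf × ℕ)) (s' : DS), (s' = s1 ∨ s' = s3) ∧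
      (∀ rest, trun stD s (toursC L ++ rest) = X ++ trun stD s' rest) ∧
      pend s ++ toursC L = X ++ pend s' := by
  induction L with
  | nil =>
    intro s hs
    exact ⟨[], s, hs, fun rest => by simp [toursC], by simp [toursC]⟩
  | cons t L ih =>
    intro s hs
    obtain ⟨X, s', hs', h1, h2⟩ := tree t s hs
    obtain ⟨Y, s'', hs'', h3, h4⟩ := ih s' hs'
    have e : toursC (t :: L) = (tourC t 0 ++ [(Inf.sep, 0)]) ++ toursC L := by
      simp [toursC]
    refine ⟨X ++ Y, s'', hs'', ?_, ?_⟩
    · intro rest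
      rw [e, append_assoc, h1, h3, append_assoc]
    · rw [e, ← append_assoc, h2, append_assoc, h4, append_assoc]

theorem drop_run (L : List CT) (j : ℕ) :
    trun stD s0 (tapeC (L ++ [l0]) j) = (Inf.sep, 0) :: (toursC L ++ replicate (j + 1) (Inf.en, 0)) := by
  rw [tapeC, sep_s0, tours_append, append_assoc]
  obtain ⟨X, s', hs', h1, h2⟩ := tours L s1 (Or.inl rfl)
  rw [h1, tours_l0]
  have h3 : trun stD s' ([(Inf.lf, 0), (Inf.sep, 0)] ++ replicate (j + 1) (Inf.en, 0)) =
      pend s' ++ replicate (j + 1) (Inf.en, 0) := by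
    have h4 := trunD_s4 (replicate j (Inf.en, 0))
    rcases hs' with rfl | rfl <;> simp [trun, stD, pend, replicate_succ, h4]
  rw [h3, ← append_assoc, ← h2]
  simp [pend]

theorem append_run (L : List CT) (j : ℕ) :
    trun stA false (tapeC L (j + 2)) = tapeC (L ++ [l0]) j ++ replicate 2 (Inf.en, 0) := by
  have e : tapeC L (j + 2) = ((Inf.sep, 0) :: toursC L) ++ replicate (j + 2 + 1) (Inf.en, 0) := by
    simp [tapeC]
  have h : ∀ x ∈ ((Inf.sep, 0) :: toursC L), x.1 ≠ Inf.en := by
    intro x hx
    rw [mem_cons] at hx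
    rcases hx with rfl | hx
    · decide
    · exact tours_en L x hx
  rw [e, trunA_false _ _ h, tapeC, tours_append, tours_l0]
  have h1 : trun stA false (replicate (j + 2 + 1) (Inf.en, 0)) =
      (Inf.lf, 0) :: (Inf.sep, 0) :: (Inf.en, 0) :: replicate (j + 2) (Inf.en, 0) := by
    rw [replicate_succ, trun]
    simp only [stA]
    rw [trunA_true]
    simp
  rw [h1]
  simp only [cons_append, nil_append, append_assoc, cons.injEq, true_and,
    append_cancel_left_eq]
  rw [replicate_append_replicate, ← replicate_succ]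

theorem len_tape (L : List CT) (j : ℕ) : (tapeC L j).length = (toursC L).length + (j + 2) := by
  simp [tapeC]; omega

end Apd

open Apd

theorem append_thm (hT : StmTrn) (hV : StmValidC) : StmAppendC := by
  obtain ⟨H, hH, h⟩ := hT Inf Bool inferInstance inferInstance stA false Inf.en
    (fun q a y hy => by rw [stA_zero q a y hy]; simp)
    (fun q i d y hy => (stA_zero q _ y hy).ge)
  refine ⟨H, hH, fun L j => ?_⟩
  refine h _ _ 0 2 (hV _ _) (hV _ _) ?_ ?_ ?_
  · rw [len_tape, len_tape, tours_append, tours_l0]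
    simp
    omega
  · intro u _
    have := trunA_len u
    rw [abs_le]
    omega
  · rw [append_run]
    simp

theorem drop_thm (hT : StmTrn) (hV : StmValidC) : StmDrop := by
  obtain ⟨H, hH, h⟩ := hT Inf DS inferInstance inferInstance stD DS.s0 Inf.en
    (fun q a y hy => by rw [stD_zero q a y hy]; simp)
    (fun q i d y hy => (stD_zero q _ y hy).ge)
  refine ⟨H, hH, fun L j => ?_⟩
  refine h _ _ 2 0 (hV _ _) (hV _ _) ?_ ?_ ?_
  · rw [len_tape, len_tape, tours_append, tours_l0]
    simp
    omega
  · intro u _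
    have := trunD_len u DS.s0
    simp only [hd] at this
    rw [abs_le]
    omega
  · rw [drop_run, tapeC]
    simp only [cons_append, append_assoc, replicate_append_replicate, replicate_zero, append_nil]

end Pool.Agent.R652.TF
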