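import Pool.Agent.R652.TF.Defs
import Pool.Agent.R652.CA.Bim1
import Pool.Agent.R652.CA.Comp

/-! # Project TF, piece AUT: graphs of padded bimachine functions are regular -/

set_option autoImplicit false

namespace Pool.Agent.R652.TF

open Pool.Agent.R652.CA List

/-! ## 1. Languages recognised from right to left -/

theorem reg_of_foldr {B R : Type} [Finite R] (dr : B → R → R) (r0 : R) (acc : R → Prop)
    (L : Language B) (hL : ∀ w, w ∈ L ↔ acc (w.foldr dr r0)) : L.IsRegular := by
  apply Language.IsRegular.of_reverse
  rw [Language.isRegular_iff]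
  refine ⟨R, Fintype.ofFinite R, ⟨fun r a => dr a r, r0, {r | acc r}⟩, ?_⟩
  ext w
  rw [DFA.mem_accepts, Language.mem_reverse, hL, List.foldr_reverse]
  rfl

/-- languages recognised from right to left -/
def RRec {B : Type} (L : List B → Prop) : Prop :=
  ∃ (R : Type) (_ : Finite R) (dr : B → R → R) (r0 : R) (acc : R → Prop),
    ∀ w, L w ↔ acc (w.foldr dr r0)

theorem rrec_congr {B : Type} {L₁ L₂ : List B → Prop} (h₁ : RRec L₁) (h : ∀ w, L₁ w ↔ L₂ w) :
    RRec L₂ := by
  obtain ⟨R₁, hR₁, dr₁, r₁, acc₁, h₁⟩ := h₁
  exact ⟨R₁, hR₁, dr₁, r₁, acc₁, fun w => (h w).symm.trans (h₁ w)⟩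

theorem rrec_and {B : Type} {L₁ L₂ : List B → Prop} (h₁ : RRec L₁) (h₂ : RRec L₂) :
    RRec (fun w => L₁ w ∧ L₂ w) := by
  obtain ⟨R₁, hR₁, dr₁, r₁, acc₁, h₁⟩ := h₁
  obtain ⟨R₂, hR₂, dr₂, r₂, acc₂, h₂⟩ := h₂
  refine ⟨R₁ × R₂, inferInstance, fun a r => (dr₁ a r.1, dr₂ a r.2), (r₁, r₂),
    fun r => acc₁ r.1 ∧ acc₂ r.2, fun w => ?_⟩
  beta_reduce
  rw [foldr_prod, h₁, h₂]

theorem rrec_map {B C : Type} {L : List C → Prop} (h : RRec L) (φ : B → C) :
    RRec (fun w => L (w.map φ)) := by
  obtain ⟨R, hR, dr, r0, acc, h⟩ := h
  refine ⟨R, hR, fun a r => dr (φ a) r, r0, acc, fun w => ?_⟩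
  beta_reduce
  rw [h, List.foldr_map]

theorem rrec_bim {B : Type} {H : List B → List Bool} (hH : IsBim H) :
    RRec (fun w => ∀ b ∈ H w, b = true) := by
  obtain ⟨Q, R, hQ, hR, q0, r0, dl, dr, out, hH⟩ := hH
  refine ⟨R × (Q → Bool), inferInstance,
    fun a r => (dr a r.1, fun q => out q a r.1 && r.2 (dl q a)), (r0, fun _ => true),
    fun r => r.2 q0 = true, fun w => ?_⟩
  have key : ∀ w : List B, w.foldr (fun a (r : R × (Q → Bool)) =>
      (dr a r.1, fun q => out q a r.1 && r.2 (dl q a))) (r0, fun _ => true) =
      (w.foldr dr r0, fun q => (bimRun dl dr r0 out q w).all id) := by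
    intro w
    induction w with
    | nil => rfl
    | cons a w ih =>
      rw [List.foldr_cons, ih]
      simp only [List.foldr_cons, bimRun, List.all_cons, id]
  beta_reduce
  rw [key, hH]
  simp [List.all_eq_true]

/-- right quotients by the words `x ^ j`, `j ≤ c` -/
theorem rrec_quot {B : Type} {L : List B → Prop} (h : RRec L) (x : B) (c : ℕ) :
    RRec (fun w => ∃ j : Fin (c + 1), L (w ++ replicate j.1 x)) := by
  obtain ⟨R, hR, dr, r0, acc, h⟩ := h
  refine ⟨Fin (c + 1) → R, inferInstance, fun a r j => dr a (r j),
    fun j => (replicate j.1 x).foldr dr r0, fun r => ∃ j, acc (r j), fun w => ?_⟩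
  have key : ∀ w : List B, w.foldr (fun a (r : Fin (c + 1) → R) j => dr a (r j))
      (fun j => (replicate j.1 x).foldr dr r0) =
      fun j => w.foldr dr ((replicate j.1 x).foldr dr r0) := by
    intro w
    induction w with
    | nil => rfl
    | cons a w ih =>
      rw [List.foldr_cons, ih]
      rfl
  rw [key]
  simp only [h, List.foldr_append]

theorem rrec_notMem {B : Type} (x : B) : RRec (fun w => x ∉ w) := by
  classical
  refine ⟨Bool, inferInstance, fun a r => r && decide (a ≠ x), true, fun r => r = true,
    fun w => ?_⟩
  induction w with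
  | nil => simp
  | cons a w ih =>
    beta_reduce at ih ⊢
    rw [List.foldr_cons, Bool.and_eq_true, ← ih, List.mem_cons]
    simp only [decide_eq_true_eq]
    tauto

theorem rrec_concat {B : Type} {L : List B → Prop} (h : RRec L) (x : B) :
    RRec (fun w => ∃ w', w = w' ++ [x] ∧ L w') := by
  classical
  obtain ⟨R, hR, dr, r0, acc, h⟩ := h
  let DR : B → Option (Option R) → Option (Option R) := fun a s => match s with
    | none => if a = x then some (some r0) else some none
    | some none => some none
    | some (some r) => some (some (dr a r))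
  refine ⟨Option (Option R), inferInstance, DR, none,
    fun s => ∃ r, s = some (some r) ∧ acc r, fun w => ?_⟩
  have h1 : ∀ w : List B, w.foldr DR (some none) = some none := by
    intro w
    induction w with
    | nil => rfl
    | cons a w ih => rw [List.foldr_cons, ih]
  have h2 : ∀ w : List B, w.foldr DR (some (some r0)) = some (some (w.foldr dr r0)) := by
    intro w
    induction w with
    | nil => rfl
    | cons a w ih => rw [List.foldr_cons, ih]; rfl
  beta_reduce
  rcases List.eq_nil_or_concat w with rfl | ⟨w', y, rfl⟩
  · simp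
  · rw [List.concat_eq_append, List.foldr_append]
    by_cases hy : y = x
    · subst hy
      have : [y].foldr DR none = some (some r0) := by
        simp [DR]
      rw [this, h2]
      constructor
      · rintro ⟨w'', hw, hL⟩
        obtain rfl : w' = w'' := by simpa using hw
        exact ⟨_, rfl, (h _).1 hL⟩
      · rintro ⟨r, hr, hacc⟩
        refine ⟨w', rfl, (h _).2 ?_⟩
        have : w'.foldr dr r0 = r := by simpa using hr
        rw [this]; exact hacc
    · have : [y].foldr DR none = some none := by
        simp [DR, hy]
      rw [this, h1]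
      constructor
      · rintro ⟨w'', hw, hL⟩
        exact absurd (by simpa using hw : w' = w'' ∧ y = x).2 hy
      · rintro ⟨r, hr, hacc⟩
        simp at hr

/-- padded words -/
theorem rrec_pad {A : Type} (c : ℕ) :
    RRec (fun v : List (Option A) => ∃ u : List A, v = u.map some ++ replicate c none) := by
  induction c with
  | zero =>
    refine rrec_congr (rrec_notMem none) (fun w => ?_)
    simp only [replicate_zero, append_nil]
    constructor
    · intro h
      refine ⟨w.filterMap id, ?_⟩
      induction w with
      | nil => rfl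
      | cons a w ih =>
        rcases a with _ | a
        · simp at h
        · have := ih (fun hw => h (List.mem_cons_of_mem _ hw))
          simpa using this
    · rintro ⟨u, rfl⟩
      simp
  | succ c ih =>
    refine rrec_congr (rrec_concat ih none) (fun w => ?_)
    constructor
    · rintro ⟨w', rfl, u, rfl⟩
      exact ⟨u, by rw [List.replicate_succ', List.append_assoc]⟩
    · rintro ⟨u, rfl⟩
      exact ⟨u.map some ++ replicate c none, by rw [List.replicate_succ', List.append_assoc],
        u, rfl⟩

/-! ## 2. Truncation after the first `none` -/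

/-- Mealy step of the truncation -/
def truncStep {A : Type} : Bool → Option A → Bool × Option A
  | false, some a => (false, some a)
  | false, none => (true, none)
  | true, _ => (true, none)

theorem trunc_true {A : Type} (w : List (Option A)) :
    mealyL truncStep true w = replicate w.length none := by
  induction w with
  | nil => rfl
  | cons a w ih => simp [mealyL, truncStep, ih, replicate_succ]

theorem trunc_eq {A : Type} (w : List (Option A)) :
    ∃ k, mealyL truncStep false w = (unpad w).map some ++ replicate k none ∧
      (unpad w).length + k = w.length := by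
  induction w with
  | nil => exact ⟨0, rfl, rfl⟩
  | cons a w ih =>
    rcases a with _ | a
    · exact ⟨w.length + 1, by simp [mealyL, truncStep, trunc_true, unpad, replicate_succ],
        by simp [unpad]⟩
    · obtain ⟨k, hk, hl⟩ := ih
      refine ⟨k, by simp [mealyL, truncStep, hk, unpad], ?_⟩
      simp [unpad]; omega

/-! ## 3. Convolutions -/

theorem zip_conv {A : Type} : ∀ (u v : List A) (a b : ℕ), u.length + a = v.length + b →
    (u.map some ++ replicate a none).zip (v.map some ++ replicate b none) =
      conv u v ++ replicate (min a b) (none, none)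
  | [], [], a, b, h => by
    obtain rfl : a = b := by simpa using h
    simp [conv]
  | [], y :: v, a, b, h => by
    obtain ⟨a, rfl⟩ : ∃ a', a = a' + 1 := ⟨a - 1, by simp at h; omega⟩
    have ih := zip_conv [] v a b (by simp at h ⊢; omega)
    have hm : min (a + 1) b = min a b := by simp at h; omega
    simp only [map_nil, nil_append] at ih
    simp [conv, replicate_succ, ih, hm]
  | x :: u, [], a, b, h => by
    obtain ⟨b, rfl⟩ : ∃ a', b = a' + 1 := ⟨b - 1, by simp at h; omega⟩
    have ih := zip_conv u [] a b (by simp at h ⊢; omega)
    have hm : min a (b + 1) = min a b := by simp at h; omega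
    simp only [map_nil, nil_append] at ih
    simp [conv, replicate_succ, ih, hm]
  | x :: u, y :: v, a, b, h => by
    have ih := zip_conv u v a b (by simp at h ⊢; omega)
    simp [conv, ih]

theorem conv_notMem {A : Type} : ∀ (u v : List A), (none, none) ∉ conv u v
  | [], [] => by simp [conv]
  | [], y :: v => by simpa [conv] using conv_notMem [] v
  | x :: u, [] => by simpa [conv] using conv_notMem u []
  | x :: u, y :: v => by simpa [conv] using conv_notMem u v

theorem append_replicate_cancel {B : Type} {x : B} {z z' : List B} {j j' : ℕ} (h1 : x ∉ z)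
    (h2 : x ∉ z') (h : z ++ replicate j x = z' ++ replicate j' x) : z = z' := by
  classical
  have e1 : ∀ (z : List B) (j : ℕ), x ∉ z →
      (z ++ replicate j x).filter (fun y => decide (y ≠ x)) = z := by
    intro z j hz
    rw [List.filter_append, List.filter_eq_self.2, List.filter_eq_nil_iff.2, append_nil]
    · intro a ha
      simpa using List.eq_of_mem_replicate ha
    · intro a ha
      simpa using fun h : a = x => hz (h ▸ ha)
  rw [← e1 z j h1, h, e1 z' j' h2]

theorem length_bimRun {A B Q R : Type} (dl : Q → A → Q) (dr : A → R → R) (r0 : R)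
    (out : Q → A → R → B) (w : List A) : ∀ q : Q, (bimRun dl dr r0 out q w).length = w.length := by
  induction w with
  | nil => intro q; rfl
  | cons a w ih => intro q; simp [bimRun, ih]

theorem IsBim.length {A B : Type} {f : List A → List B} (hf : IsBim f) (w : List A) :
    (f w).length = w.length := by
  obtain ⟨Q, R, hQ, hR, q0, r0, dl, dr, out, h⟩ := hf
  rw [h, length_bimRun]

/-! ## 4. The theorem -/

theorem auto_thm : StmAuto := by
  classical
  intro A _ F hF c
  -- truncated function
  let G : List (Option A) → List (Option A) := fun v => mealyL truncStep false (F v)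
  have hG : IsBim G := bim_comp _ _ _ _ _ hF (bim_L _ _ Bool inferInstance truncStep false)
  let H : List (Option A × Option A) → List Bool := fun z =>
    ((z.map Prod.snd).zip (G (z.map Prod.fst))).map (fun p => decide (p.1 = p.2))
  have hH : IsBim H := by
    refine bim_comp _ _ _ (fun z : List (Option A × Option A) =>
      (z.map Prod.snd).zip (G (z.map Prod.fst))) _ ?_ (bim_map _ _ _)
    exact bim_zip _ _ _ _ _ (bim_map _ _ _) (bim_comp _ _ _ _ _ (bim_map _ _ _) hG)
  have hzip : ∀ p q : List (Option A), p.length = q.length →
      ((∀ b ∈ (p.zip q).map (fun p => decide (p.1 = p.2)), b = true) ↔ p = q) := by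
    intro p
    induction p with
    | nil =>
      intro q hq
      obtain rfl : q = [] := List.length_eq_zero_iff.1 hq.symm
      simp
    | cons a p ih =>
      intro q hq
      rcases q with _ | ⟨b, q⟩
      · simp at hq
      · have := ih q (by simpa using hq)
        simp only [zip_cons_cons, map_cons, mem_cons, forall_eq_or_imp, this,
          decide_eq_true_eq, cons.injEq]
  have hHtrue : ∀ z, (∀ b ∈ H z, b = true) ↔ z.map Prod.snd = G (z.map Prod.fst) := fun z =>
    hzip _ _ (by rw [IsBim.length hG]; simp)
  have hrec : RRec (fun z : List (Option A × Option A) => (none, none) ∉ z ∧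
      ∃ j : Fin (c + 1), (∀ b ∈ H (z ++ replicate j.1 (none, none)), b = true) ∧
        ∃ u : List A, (z ++ replicate j.1 (none, none)).map Prod.fst =
          u.map some ++ replicate c none) :=
    rrec_and (rrec_notMem _) (rrec_quot (rrec_and (rrec_bim hH)
      (rrec_map (rrec_pad c) Prod.fst)) (none, none) c)
  -- the padded output
  have hpad : ∀ u : List A, ∃ k, G (u.map some ++ replicate c none) =
      (unpad (F (u.map some ++ replicate c none))).map some ++ replicate k none ∧
      (unpad (F (u.map some ++ replicate c none))).length + k = u.length + c := by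
    intro u
    obtain ⟨k, hk, hl⟩ := trunc_eq (F (u.map some ++ replicate c none))
    refine ⟨k, hk, ?_⟩
    rw [hl, IsBim.length hF]
    simp
  obtain ⟨R, hR, dr, r0, acc, hacc⟩ := hrec
  refine reg_of_foldr dr r0 acc _ (fun z => ?_)
  rw [← hacc]
  constructor
  · rintro ⟨u, rfl⟩
    refine ⟨conv_notMem _ _, ?_⟩
    obtain ⟨k, hk, hl⟩ := hpad u
    have hz := zip_conv u (unpad (F (u.map some ++ replicate c none))) c k (by omega)
    refine ⟨⟨min c k, by omega⟩, ?_, u, ?_⟩
    · rw [hHtrue, ← hz, List.map_fst_zip, List.map_snd_zip]
      · exact hk.symm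
      · simp; omega
      · simp; omega
    · rw [← hz, List.map_fst_zip]
      simp; omega
  · rintro ⟨hz, j, hH1, u, hu⟩
    refine ⟨u, ?_⟩
    obtain ⟨k, hk, hl⟩ := hpad u
    have hz' := zip_conv u (unpad (F (u.map some ++ replicate c none))) c k (by omega)
    rw [hHtrue, hu, hk] at hH1
    have := List.zip_of_prod hu hH1
    rw [hz'] at this
    exact append_replicate_cancel hz (conv_notMem _ _) this

end Pool.Agent.R652.TF
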