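import Pool.Agent.R652.CA.Defs

/-!
# Thompson's group F is Cayley one-tape linear-time computable: definitions and statements

Project TF (MP_7161f1_al).  See `NOTES.md` in this folder.  The generic part (`IsBim`, `Uni`,
`RelR`, `RelApp`, `enc`, `Valid`, `sh`, ...) is in `Pool.Agent.R652.CA.Defs`.
-/

namespace Pool.Agent.R652.TF

open Pool.Agent.R652.CA List

/-! ## 1. The group -/

/-- the generator `x_i` of the free group -/
abbrev fx (i : Fin 2) : FreeGroup (Fin 2) := FreeGroup.of i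

/-- the commutator `a b a⁻¹ b⁻¹` -/
def cmt (a b : FreeGroup (Fin 2)) : FreeGroup (Fin 2) := a * b * a⁻¹ * b⁻¹

/-- first relator `[x0 x1⁻¹, x0⁻¹ x1 x0]` -/
def rel1 : FreeGroup (Fin 2) := cmt (fx 0 * (fx 1)⁻¹) ((fx 0)⁻¹ * fx 1 * fx 0)

/-- second relator `[x0 x1⁻¹, x0⁻² x1 x0²]` -/
def rel2 : FreeGroup (Fin 2) := cmt (fx 0 * (fx 1)⁻¹) ((fx 0)⁻¹ ^ 2 * fx 1 * fx 0 ^ 2)

/-- Thompson's group `F` -/
abbrev FG : Type := PresentedGroup ({rel1, rel2} : Set (FreeGroup (Fin 2)))

/-- generators of `F` -/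
def g0 : FG := PresentedGroup.of 0
/-- generators of `F` -/
def g1 : FG := PresentedGroup.of 1

/-- the infinite family of generators `x_0, x_{n+1} = x_0^{-n} x_1 x_0^n` -/
def xx : ℕ → FG
  | 0 => g0
  | n + 1 => g0⁻¹ ^ n * g1 * g0 ^ n

/-- positive word -/
def pw (p : List ℕ) : FG := (p.map xx).prod

def StmRel : Prop := ∀ i j : ℕ, i < j → xx j * xx i = xx i * xx (j + 1)
def StmHom : Prop := ∀ (H : Type) (_ : Group H) (y : ℕ → H),
  (∀ i j : ℕ, i < j → y j * y i = y i * y (j + 1)) → ∃ θ : FG →* H, ∀ n, θ (xx n) = y n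
def StmFrac : Prop := ∀ g : FG, ∃ p q : List ℕ, g = pw p * (pw q)⁻¹

/-- expansion of the leaf number `i` (labels: numbers of opening and closing brackets) -/
def exl (i : ℕ) (s : ℕ → ℕ × ℕ) : ℕ → ℕ × ℕ := fun k =>
  if k < i then s k else if k = i then ((s i).1 + 1, 0) else
    if k = i + 1 then (0, (s i).2 + 1) else s (k - 1)

/-- the labels obtained from the trivial ones by successive expansions -/
def lb (p : List ℕ) : ℕ → ℕ × ℕ := p.foldl (fun s i => exl i s) (fun _ => (0, 0))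

def StmPos : Prop := ∀ p q : List ℕ, lb p = lb q → pw p = pw q

/-! ## 2. The Cantor algebra -/

/-- binary trees with leaves labelled by two natural numbers -/
inductive CT
  | lf (a b : ℕ)
  | nd (l r : CT)

/-- split a tree in two -/
def spl : CT → CT × CT
  | CT.lf a b => (CT.lf (a + 1) 0, CT.lf 0 (b + 1))
  | CT.nd l r => (l, r)

/-- join two trees (inverse of `spl`) -/
def joi : CT → CT → CT
  | CT.lf (a + 1) 0, CT.lf 0 (b + 1) => CT.lf a b
  | l, r => CT.nd l r

/-- reduced trees -/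
def Red : CT → Prop
  | CT.lf _ _ => True
  | CT.nd l r => Red l ∧ Red r ∧ ¬ ∃ a b, l = CT.lf (a + 1) 0 ∧ r = CT.lf 0 (b + 1)

/-- split the tree number `i` of a sequence -/
def splS (i : ℕ) (s : ℕ → CT) : ℕ → CT := fun k =>
  if k < i then s k else if k = i then (spl (s i)).1 else
    if k = i + 1 then (spl (s i)).2 else s (k - 1)

/-- join the trees number `i` and `i + 1` -/
def joiS (i : ℕ) (s : ℕ → CT) : ℕ → CT := fun k =>
  if k < i then s k else if k = i then joi (s i) (s (i + 1)) else s (k + 1)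

/-- reduced sequences -/
abbrev RS : Type := {s : ℕ → CT // ∀ k, Red (s k)}

/-- the base point -/
def base : RS := ⟨fun _ => CT.lf 0 0, fun _ => trivial⟩

/-- right action of `F` on reduced sequences, free at the base point -/
def StmAct : Prop := ∃ a : RS → FG → RS, (∀ s, a s 1 = s) ∧ (∀ s g h, a s (g * h) = a (a s g) h) ∧
  (∀ s i, (a s (xx i)).1 = splS i s.1) ∧ (∀ s i, (a s (xx i)⁻¹).1 = joiS i s.1) ∧
  (∀ g, a base g = base → g = 1)

/-! ## 3. Finite lists of trees -/

/-- the trivial tree -/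
abbrev l0 : CT := CT.lf 0 0

/-- the sequence of a finite list -/
def sq (L : List CT) : ℕ → CT := fun k => L.getD k l0

/-- canonical lists -/
def CL (L : List CT) : Prop :=
  3 ≤ L.length ∧ (L.length = 3 ∨ L.getLast? ≠ some l0) ∧ ∀ t ∈ L, Red t

/-- remove the last tree if it is trivial and there are more than three trees -/
def NormL (L L' : List CT) : Prop :=
  (3 < L.length ∧ L.getLast? = some l0 ∧ L' = L.dropLast) ∨
    (¬ (3 < L.length ∧ L.getLast? = some l0) ∧ L' = L)

def StmListInj : Prop := ∀ L L', CL L → CL L' → sq L = sq L' → L = L'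
def StmListSpl : Prop := ∀ i ≤ 1, ∀ L, CL L → ∃ L1 t L2, L = L1 ++ t :: L2 ∧ L1.length = i ∧
  ∀ L', NormL (L1 ++ (spl t).1 :: (spl t).2 :: L2) L' → CL L' ∧ sq L' = splS i (sq L)
def StmListJoi : Prop := ∀ i ≤ 1, ∀ L, CL L → ∃ L1 l r L2, L ++ [l0] = L1 ++ l :: r :: L2 ∧
  L1.length = i ∧ ∀ L', NormL (L1 ++ joi l r :: L2) L' → CL L' ∧ sq L' = joiS i (sq L)

/-! ## 4. Tapes -/

/-- informations on the cells -/
inductive Inf
  | sep
  | en
  | qo
  | qm
  | qc
  | lf
  | po
  | pc
  deriving DecidableEq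

instance : Fintype Inf :=
  ⟨{Inf.sep, Inf.en, Inf.qo, Inf.qm, Inf.qc, Inf.lf, Inf.po, Inf.pc}, by intro x; cases x <;> decide⟩

/-- tour of a tree whose root has height `d` -/
def tourC : CT → ℕ → List (Inf × ℕ)
  | CT.lf a b, d => replicate a (Inf.po, d) ++ (Inf.lf, d) :: replicate b (Inf.pc, d)
  | CT.nd l r, d => (Inf.qo, d) :: (tourC l (d + 1) ++ (Inf.qm, d) ::
      (tourC r (d + 1) ++ [(Inf.qc, d)]))

/-- tours of a list of trees, each followed by a separator -/
def toursC (L : List CT) : List (Inf × ℕ) := L.flatMap (fun t => tourC t 0 ++ [(Inf.sep, 0)])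

/-- the tape of a list of trees, with `j + 1` end cells -/
def tapeC (L : List CT) (j : ℕ) : List (Inf × ℕ) :=
  (Inf.sep, 0) :: (toursC L ++ replicate (j + 1) (Inf.en, 0))

def StmValidC : Prop := ∀ L j, Valid (tapeC L j)
def StmTapeInjC : Prop := ∀ L L', enc (tapeC L 0) = enc (tapeC L' 0) → L = L'

/-! ## 5. Transducers with bounded shift -/

/-- output of a left-to-right transducer -/
def srun {A B Q : Type} (step : Q → A → Q × List B) : Q → List A → List B
  | _, [] => []
  | q, a :: w => (step q a).2 ++ srun step (step q a).1 w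

def StmSeq : Prop := ∀ (A B Q : Type) (_ : Finite A) (_ : Finite B) (_ : Finite Q)
  (step : Q → A → Q × List B) (q0 : Q) (e : B), ∃ H : List A → List B, IsBim H ∧
    ∀ w, (∀ u, u <+: w → |((srun step q0 u).length : ℤ) - u.length| ≤ 6) →
      H w = (srun step q0 w ++ replicate 6 e).take w.length

/-- a transducer acting on tapes with heights: the outputs have heights relative to the height of
the cell which is read; it sees the height mod 64 and whether the height is zero -/
def trun {I Q : Type} (step : Q → I × Fin 64 × Bool → Q × List (I × ℤ)) :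
    Q → List (I × ℕ) → List (I × ℕ)
  | _, [] => []
  | q, x :: w => (step q (x.1, md x.2, decide (x.2 = 0))).2.map
        (fun y => (y.1, ((x.2 : ℤ) + y.2).toNat)) ++
      trun step (step q (x.1, md x.2, decide (x.2 = 0))).1 w

def StmTrn : Prop := ∀ (I Q : Type) (_ : Finite I) (_ : Finite Q)
  (step : Q → I × Fin 64 × Bool → Q × List (I × ℤ)) (q0 : Q) (e : I),
  (∀ q a, ∀ y ∈ (step q a).2, |y.2| ≤ 1) → (∀ q i d, ∀ y ∈ (step q (i, d, true)).2, 0 ≤ y.2) →
  ∃ H, IsBim H ∧ ∀ (ℓ ℓ' : List (I × ℕ)) (k₁ k₂ : ℕ), Valid ℓ → Valid ℓ' →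
    ℓ.length = ℓ'.length →
    (∀ u, u <+: ℓ → |((trun step q0 u).length : ℤ) - u.length| ≤ 6) →
    trun step q0 ℓ ++ replicate k₁ (e, 0) = ℓ' ++ replicate k₂ (e, 0) → RelR H ℓ ℓ'

/-! ## 6. Operations on tapes -/

def StmSplit : Prop := ∀ i ≤ 1, ∃ H, IsBim H ∧ ∀ L1 l r L2 j, L1.length = i →
  RelR H (tapeC (L1 ++ CT.nd l r :: L2) j) (tapeC (L1 ++ l :: r :: L2) (j + 2))
def StmExpandC : Prop := ∀ i ≤ 1, ∃ H, IsBim H ∧ ∀ L1 a b L2 j, L1.length = i →
  RelR H (tapeC (L1 ++ CT.lf a b :: L2) (j + 4))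
    (tapeC (L1 ++ CT.lf (a + 1) 0 :: CT.lf 0 (b + 1) :: L2) j)
def StmJoin : Prop := ∀ i ≤ 1, ∃ H, IsBim H ∧ ∀ L1 l r L2 j, L1.length = i →
  RelR H (tapeC (L1 ++ l :: r :: L2) (j + 2)) (tapeC (L1 ++ CT.nd l r :: L2) j)
def StmReduce : Prop := ∀ i ≤ 1, ∃ H, IsBim H ∧ ∀ L1 a b L2 j, L1.length = i →
  RelR H (tapeC (L1 ++ CT.lf (a + 1) 0 :: CT.lf 0 (b + 1) :: L2) j)
    (tapeC (L1 ++ CT.lf a b :: L2) (j + 4))
def StmAppendC : Prop := ∃ H, IsBim H ∧ ∀ L j, RelR H (tapeC L (j + 2)) (tapeC (L ++ [l0]) j)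
def StmDrop : Prop := ∃ H, IsBim H ∧ ∀ L j, RelR H (tapeC (L ++ [l0]) j) (tapeC L (j + 2))

/-- finite-state test: the tree number `i` is a node -/
def StmTestNode : Prop := ∀ i ≤ 1, ∃ (Q : Type) (_ : Finite Q) (step : Q → Inf × Fin 64 × Bool → Q)
  (q0 : Q) (acc : Q → Bool), ∀ L1 t L2 j, L1.length = i →
    (acc ((sh (tapeC (L1 ++ t :: L2) j)).foldl step q0) = true ↔ ∃ l r, t = CT.nd l r)
/-- finite-state test: the trees number `i` and `i + 1` are a reducible pair -/
def StmTestRed : Prop := ∀ i ≤ 1, ∃ (Q : Type) (_ : Finite Q) (step : Q → Inf × Fin 64 × Bool → Q)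
  (q0 : Q) (acc : Q → Bool), ∀ L1 l r L2 j, L1.length = i →
    (acc ((sh (tapeC (L1 ++ l :: r :: L2) j)).foldl step q0) = true ↔
      ∃ a b, l = CT.lf (a + 1) 0 ∧ r = CT.lf 0 (b + 1))
/-- finite-state test: the last tree should be dropped -/
def StmTestDrop : Prop := ∃ (Q : Type) (_ : Finite Q) (step : Q → Inf × Fin 64 × Bool → Q)
  (q0 : Q) (acc : Q → Bool), ∀ L j,
    (acc ((sh (tapeC L j)).foldl step q0) = true ↔ (3 < L.length ∧ L.getLast? = some l0))

/-! ## 7. Automatic functions and the final statement -/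

/-- convolution of two words -/
def conv {A : Type} : List A → List A → List (Option A × Option A)
  | [], [] => []
  | a :: u, [] => (some a, none) :: conv u []
  | [], b :: v => (none, some b) :: conv [] v
  | a :: u, b :: v => (some a, some b) :: conv u v

/-- `f` is automatic: the set of the convolutions of `u` and `f u` is a regular language -/
def Automatic {A : Type} (f : List A → List A) : Prop :=
  Language.IsRegular ({w | ∃ u, w = conv u (f u)} : Language (Option A × Option A))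

def StmAuto : Prop := ∀ (A : Type) (_ : Finite A) (F : List (Option A) → List (Option A)),
  IsBim F → ∀ c : ℕ, Automatic (fun w : List A => unpad (F (w.map some ++ replicate c none)))

/-- `Gr` is Cayley position-faithful (one-tape) linear-time computable with respect to `Sg`:
right multiplications are automatic functions (and computed by one-tape machines). -/
def CayleyAutomaticFunctions (Gr : Type) [Group Gr] (Sg : Set Gr) : Prop :=
  ∃ (A : Type) (_ : Finite A) (L : Set (List A)) (ψ : L → Gr) (f : Gr → List A → List A),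
    Function.Bijective ψ ∧ (∀ s ∈ Sg, Automatic (f s) ∧ LinTime (f s)) ∧
      ∀ s ∈ Sg, ∀ w : L, ∃ h : f s w ∈ L, ψ ⟨f s w, h⟩ = ψ w * s

/-- Final theorem. -/
def StmMainF : Prop := ∀ Sg : Set FG, CayleyAutomaticFunctions FG Sg

end Pool.Agent.R652.TF
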