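import Pool.Agent.R219.TFAux

/-!
# Project TF, piece TF-EXP: expanding the leaf number `i` of a tape
-/

namespace Pool.Agent.R652.TF

open Pool.Agent.R652.CA List Pool.Agent.R219.TFAux

/-- the transducer which expands a leaf -/
def stepExp : St → Inf × Fin 64 × Bool → St × List (Inf × ℤ)
  | St.c1, (i, _, _) => if i = Inf.sep then (St.c0, [(i, 0)]) else (St.c1, [(i, 0)])
  | St.c0, (i, _, _) => if i = Inf.sep then (St.a, [(i, 0)]) else (St.c0, [(i, 0)])
  | St.a, (i, _, _) => if i = Inf.lf then
      (St.d, [(Inf.po, 0), (Inf.lf, 0), (Inf.sep, 0), (Inf.lf, 0), (Inf.pc, 0)])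
        else (St.a, [(i, 0)])
  | St.b, (i, _, _) => (St.b, [(i, 0)])
  | St.c, (i, _, _) => (St.c, [(i, 0)])
  | St.d, (i, _, _) => (St.d, [(i, 0)])

/-- the shift in each state -/
def shExp : St → ℤ
  | St.c1 => 0
  | St.c0 => 0
  | St.a => 0
  | St.b => 0
  | St.c => 0
  | St.d => 4

theorem rep_comm {A : Type} (a : ℕ) (x : A) (l : List A) :
    replicate a x ++ x :: l = x :: (replicate a x ++ l) := by
  induction a with
  | zero => rfl
  | succ n ih => simp [List.replicate_succ, ih]

theorem expand_thm (hT : StmTrn) (hV : StmValidC) : StmExpandC := by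
  intro i hi
  obtain ⟨H, hH, hrel⟩ := finish hT hV stepExp shExp
    (by
      rintro q ⟨x, y, z⟩
      cases q <;> simp only [stepExp] <;> (try split_ifs) <;> simp [shExp])
    rfl rfl
    (by intro q; cases q <;> simp [shExp])
    (by
      rintro q ⟨x, y, z⟩ w hw
      cases q <;> simp only [stepExp] at hw <;> (try split_ifs at hw) <;> simp at hw <;>
        (try rcases hw with rfl | rfl | rfl | rfl | rfl) <;> simp)
    (by
      rintro q x y w hw
      cases q <;> simp only [stepExp] at hw <;> (try split_ifs at hw) <;> simp at hw <;>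
        (try rcases hw with rfl | rfl | rfl | rfl | rfl) <;> simp) i
  refine ⟨H, hH, ?_⟩
  intro L1 a b L2 j hL
  obtain ⟨hp1, hp2⟩ := prefix_run stepExp []
    (by intro d z; simp [stepExp]) (by intro i d z h; simp [stepExp, h])
    (by intro d z; simp [stepExp]) L1 i hi hL
  obtain ⟨ha1, ha2⟩ := loop0 stepExp St.a (replicate a (Inf.po, 0)) (by
    intro x hx
    rw [List.mem_replicate] at hx
    rw [hx.2]
    simp [stepExp])
  obtain ⟨hb1, hb2⟩ := loop0 stepExp St.d (replicate b (Inf.pc, 0))
    (by intro x _; simp [stepExp])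
  obtain ⟨he1, he2⟩ := loop0 stepExp St.d
    ((Inf.sep, 0) :: (toursC L2 ++ replicate (j + 4 + 1) (Inf.en, 0)))
    (by intro x _; simp [stepExp])
  have hA : trun stepExp St.a (tourC (CT.lf a b) 0) =
      tourC (CT.lf (a + 1) 0) 0 ++ (Inf.sep, 0) :: tourC (CT.lf 0 (b + 1)) 0 := by
    simp only [tourC]
    rw [trun_append, ha1, ha2, trun_cons]
    simp only [stepExp, if_true]
    rw [hb1]
    simp [o1, List.replicate_succ, rep_comm]
  have hA2 : fin stepExp St.a (tourC (CT.lf a b) 0) = St.d := by
    simp only [tourC]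
    rw [fin_append, ha2]
    show fin stepExp (stepExp St.a (Inf.lf, md 0, decide (0 = 0))).1 _ = _
    simp only [stepExp, if_true]
    exact hb2
  apply hrel _ _ _ _ 0 4
  · rw [tape_eq, fin_append, hp2, fin_append, hA2, he2]
  · simp [shExp]
  · rw [tape_eq, trun_append, hp1, hp2, trun_append, hA, hA2, he1, tape_eq2]
    have hrep : replicate (j + 4 + 1) ((Inf.en, 0) : Inf × ℕ) =
        replicate (j + 1) (Inf.en, 0) ++ replicate 4 (Inf.en, 0) := by
      rw [← List.replicate_add]
    rw [hrep]
    simp [o1]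

end Pool.Agent.R652.TF
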