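import Pool.Agent.R652.TF.Defs

/-!
# MP_7161f1_al : every element of `F` is a fraction of positive words (TF-FRAC)
-/

namespace Pool.Agent.R652.TF

open List

lemma frac_pw_cons (i : ℕ) (p : List ℕ) : pw (i :: p) = xx i * pw p := by
  simp [pw]

lemma frac_pw_append (p q : List ℕ) : pw (p ++ q) = pw p * pw q := by
  simp [pw]

/-- common multiples of a generator and a positive word -/
lemma frac_cm (h : StmRel) (q : List ℕ) : ∀ i : ℕ, ∃ q' p' : List ℕ,
    xx i * pw q' = pw q * pw p' := by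
  induction q with
  | nil =>
    intro i
    exact ⟨[], [i], by simp [pw]⟩
  | cons j q ih =>
    intro i
    rcases lt_trichotomy i j with hij | hij | hij
    · obtain ⟨q1, p1, h1⟩ := ih i
      refine ⟨(j + 1) :: q1, p1, ?_⟩
      rw [frac_pw_cons, frac_pw_cons, ← mul_assoc, ← h i j hij, mul_assoc, h1, ← mul_assoc]
    · subst hij
      exact ⟨q, [], by rw [frac_pw_cons]; simp [pw]⟩
    · obtain ⟨q1, p1, h1⟩ := ih (i + 1)
      refine ⟨j :: q1, p1, ?_⟩
      rw [frac_pw_cons, frac_pw_cons, ← mul_assoc, h j i hij, mul_assoc, h1, ← mul_assoc]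

theorem frac_thm (h : StmRel) : StmFrac := by
  intro g
  have hg : g ∈ Subgroup.closure
      (Set.range (PresentedGroup.of (rels := ({rel1, rel2} : Set (FreeGroup (Fin 2)))))) := by
    rw [PresentedGroup.closure_range_of]
    trivial
  induction hg using Subgroup.closure_induction_right with
  | one => exact ⟨[], [], by simp [pw]⟩
  | mul_right x hx y hy ih =>
    obtain ⟨p, q, rfl⟩ := ih
    obtain ⟨i, rfl⟩ := hy
    obtain ⟨n, hn⟩ : ∃ n, xx n = PresentedGroup.of i := by
      fin_cases i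
      · exact ⟨0, rfl⟩
      · refine ⟨1, ?_⟩
        simp [xx, g1]
    obtain ⟨q', p', h1⟩ := frac_cm h q n
    refine ⟨p ++ p', q', ?_⟩
    rw [← hn, frac_pw_append]
    have h2 : (pw q)⁻¹ * xx n = pw p' * (pw q')⁻¹ := by
      rw [inv_mul_eq_iff_eq_mul, ← mul_assoc, eq_mul_inv_iff_mul_eq]
      exact h1
    rw [mul_assoc, h2, mul_assoc]
  | mul_inv_cancel x hx y hy ih =>
    obtain ⟨p, q, rfl⟩ := ih
    obtain ⟨i, rfl⟩ := hy
    obtain ⟨n, hn⟩ : ∃ n, xx n = PresentedGroup.of i := by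
      fin_cases i
      · exact ⟨0, rfl⟩
      · refine ⟨1, ?_⟩
        simp [xx, g1]
    refine ⟨p, n :: q, ?_⟩
    rw [← hn, frac_pw_cons, mul_inv_rev, mul_assoc]

end Pool.Agent.R652.TF
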