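import Pool.Agent.R219.TFAux

/-!
# Project TF, piece TF-JOIN: joining the trees number `i` and `i + 1` of a tape
-/

namespace Pool.Agent.R652.TF

open Pool.Agent.R652.CA List Pool.Agent.R219.TFAux

/-- the transducer which joins two trees -/
def stepJoin : St → Inf × Fin 64 × Bool → St × List (Inf × ℤ)
  | St.c1, (i, _, _) => if i = Inf.sep then (St.c0, [(i, 0)]) else (St.c1, [(i, 0)])
  | St.c0, (i, _, _) => if i = Inf.sep then (St.a, [(Inf.sep, 0), (Inf.qo, 0)])
      else (St.c0, [(i, 0)])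
  | St.a, (i, _, _) => if i = Inf.sep then (St.b, [(Inf.qm, 0)]) else (St.a, [(i, 1)])
  | St.b, (i, _, _) => if i = Inf.sep then (St.d, [(Inf.qc, 0), (Inf.sep, 0)])
      else (St.b, [(i, 1)])
  | St.c, (i, _, _) => (St.c, [(i, 0)])
  | St.d, (i, _, _) => (St.d, [(i, 0)])

/-- the shift in each state -/
def shJoin : St → ℤ
  | St.c1 => 0
  | St.c0 => 0
  | St.a => 1
  | St.b => 1
  | St.c => 0
  | St.d => 2

theorem join_thm (hT : StmTrn) (hV : StmValidC) : StmJoin := by
  intro i hi
  obtain ⟨H, hH, hrel⟩ := finish hT hV stepJoin shJoin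
    (by
      rintro q ⟨x, y, z⟩
      cases q <;> simp only [stepJoin] <;> (try split_ifs) <;> simp [shJoin])
    rfl rfl
    (by intro q; cases q <;> simp [shJoin])
    (by
      rintro q ⟨x, y, z⟩ w hw
      cases q <;> simp only [stepJoin] at hw <;> (try split_ifs at hw) <;> simp at hw <;>
        (try rcases hw with rfl | rfl) <;> simp)
    (by
      rintro q x y w hw
      cases q <;> simp only [stepJoin] at hw <;> (try split_ifs at hw) <;> simp at hw <;>
        (try rcases hw with rfl | rfl) <;> simp) i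
  refine ⟨H, hH, ?_⟩
  intro L1 l r L2 j hL
  obtain ⟨hp1, hp2⟩ := prefix_run stepJoin [(Inf.qo, 0)]
    (by intro d z; simp [stepJoin]) (by intro i d z h; simp [stepJoin, h])
    (by intro d z; simp [stepJoin]) L1 i hi hL
  obtain ⟨hl1, hl2⟩ := loop stepJoin St.a 1 (tourC l 0) (by
    intro x hx
    have := (mem_tour l 0 x hx).1
    simp [stepJoin, this])
  obtain ⟨hr1, hr2⟩ := loop stepJoin St.b 1 (tourC r 0) (by
    intro x hx
    have := (mem_tour r 0 x hx).1
    simp [stepJoin, this])
  rw [map_up] at hl1 hr1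
  obtain ⟨he1, he2⟩ := loop0 stepJoin St.d
    (toursC L2 ++ replicate (j + 2 + 1) (Inf.en, 0)) (by intro x _; simp [stepJoin])
  have hB : trun stepJoin St.a (tourC l 0 ++ ((Inf.sep, 0) :: (tourC r 0 ++
        ((Inf.sep, 0) :: (toursC L2 ++ replicate (j + 2 + 1) (Inf.en, 0)))))) =
      tourC l 1 ++ (Inf.qm, 0) :: (tourC r 1 ++ (Inf.qc, 0) :: (Inf.sep, 0) ::
        (toursC L2 ++ replicate (j + 2 + 1) (Inf.en, 0))) := by
    rw [trun_append, hl1, hl2, trun_cons]
    simp only [stepJoin, if_true]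
    rw [trun_append, hr1, hr2, trun_cons]
    simp only [stepJoin, if_true]
    rw [he1]
    simp [o1]
  have hB2 : fin stepJoin St.a (tourC l 0 ++ ((Inf.sep, 0) :: (tourC r 0 ++
        ((Inf.sep, 0) :: (toursC L2 ++ replicate (j + 2 + 1) (Inf.en, 0)))))) = St.d := by
    rw [fin_append, hl2]
    show fin stepJoin (stepJoin St.a (Inf.sep, md 0, decide (0 = 0))).1 _ = _
    simp only [stepJoin, if_true]
    rw [fin_append, hr2]
    show fin stepJoin (stepJoin St.b (Inf.sep, md 0, decide (0 = 0))).1 _ = _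
    simp only [stepJoin, if_true]
    exact he2
  apply hrel _ _ _ _ 0 2
  · rw [tape_eq2, fin_append, hp2, hB2]
  · simp [shJoin]
  · rw [tape_eq2, trun_append, hp1, hp2, hB, tape_eq]
    have hrep : replicate (j + 2 + 1) ((Inf.en, 0) : Inf × ℕ) =
        replicate (j + 1) (Inf.en, 0) ++ replicate 2 (Inf.en, 0) := by
      rw [← List.replicate_add]
    rw [hrep]
    simp [o1, tourC]

end Pool.Agent.R652.TF
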