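import Pool.Agent.R652.TF.Defs

/-!
# TF-LIST: list bookkeeping
-/

set_option autoImplicit false

namespace Pool.Agent.R652.TF

open Pool.Agent.R652.CA List

namespace TFList

lemma sq_lt (L : List CT) (k : ℕ) (h : k < L.length) : sq L k = L[k] := by
  unfold sq; rw [List.getD_eq_getElem _ _ h]

lemma sq_ge (L : List CT) (k : ℕ) (h : L.length ≤ k) : sq L k = l0 := by
  unfold sq; rw [List.getD_eq_default _ _ h]

lemma getLast?_eq_sq (L : List CT) (h : L ≠ []) : L.getLast? = some (sq L (L.length - 1)) := by
  have hl : 0 < L.length := List.length_pos_iff.2 h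
  rw [sq_lt L _ (by omega), List.getLast?_eq_some_getLast h, List.getLast_eq_getElem]

lemma sq_append_l0 (L : List CT) : sq (L ++ [l0]) = sq L := by
  funext k
  rcases lt_trichotomy k L.length with h | h | h
  · rw [sq_lt (L ++ [l0]) k (by simp; omega), sq_lt L k h, List.getElem_append_left]
  · rw [sq_ge L k h.ge, sq_lt (L ++ [l0]) k (by simp; omega), List.getElem_append_right (by omega)]
    simp
  · rw [sq_ge L k h.le, sq_ge (L ++ [l0]) k (by simp; omega)]

lemma sq_norm (L L' : List CT) (h : NormL L L') : sq L' = sq L := by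
  rcases h with ⟨h1, h2, rfl⟩ | ⟨-, rfl⟩
  · have hne : L ≠ [] := by intro e; subst e; simp at h1
    have h3 : L = L.dropLast ++ [l0] := by
      rw [List.getLast?_eq_some_getLast hne] at h2
      have h4 := List.dropLast_append_getLast hne
      rw [Option.some.inj h2] at h4
      exact h4.symm
    conv_rhs => rw [h3]
    exact (sq_append_l0 _).symm
  · rfl

lemma sq_split (L1 : List CT) (t : CT) (L2 : List CT) (k : ℕ) :
    sq (L1 ++ t :: L2) k = if k < L1.length then sq L1 k else
      if k = L1.length then t else sq L2 (k - L1.length - 1) := by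
  split_ifs with h1 h2
  · rw [sq_lt _ k (by simp; omega), sq_lt L1 k h1, List.getElem_append_left]
  · subst h2
    rw [sq_lt _ _ (by simp), List.getElem_append_right le_rfl]
    simp
  · rcases lt_or_ge k (L1 ++ t :: L2).length with h3 | h3
    · have h4 : k - L1.length - 1 < L2.length := by simp at h3; omega
      rw [sq_lt _ k h3, sq_lt L2 _ h4, List.getElem_append_right (by omega)]
      rw [List.getElem_cons, dif_neg (by omega)]
    · rw [sq_ge _ k h3, sq_ge]
      simp at h3; omega

lemma red_spl (t : CT) (h : Red t) : Red (spl t).1 ∧ Red (spl t).2 := by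
  cases t with
  | lf a b => exact ⟨trivial, trivial⟩
  | nd l r => exact ⟨h.1, h.2.1⟩

lemma red_joi (l r : CT) (hl : Red l) (hr : Red r) : Red (joi l r) := by
  unfold joi
  split
  · exact trivial
  · rename_i hne
    refine ⟨hl, hr, ?_⟩
    rintro ⟨a, b, rfl, rfl⟩
    exact hne a b rfl rfl

lemma cl_norm (L L' : List CT) (h : NormL L L') (hlen : 3 ≤ L.length)
    (hdrop : 4 < L.length → sq L (L.length - 1) = l0 → sq L (L.length - 2) ≠ l0)
    (hred : ∀ t ∈ L, Red t) : CL L' := by
  have hne : L ≠ [] := by intro e; subst e; simp at hlen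
  rcases h with ⟨h1, h2, rfl⟩ | ⟨h1, rfl⟩
  · refine ⟨by rw [List.length_dropLast]; omega, ?_, fun t ht => hred t (List.mem_of_mem_dropLast ht)⟩
    rcases Nat.lt_or_ge 4 L.length with h3 | h3
    · right
      have h4 : L.dropLast ≠ [] := by
        intro e
        have := congrArg List.length e
        rw [List.length_dropLast] at this
        simp at this; omega
      rw [getLast?_eq_sq _ h4, List.length_dropLast]
      rw [getLast?_eq_sq _ hne] at h2
      have h5 := hdrop h3 (Option.some.inj h2)
      have h6 : sq L.dropLast (L.length - 1 - 1) = sq L (L.length - 2) := by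
        rw [sq_lt L _ (by omega), sq_lt L.dropLast _ (by rw [List.length_dropLast]; omega),
          List.getElem_dropLast]
        congr 1
      rw [h6]
      exact fun e => h5 (Option.some.inj e)
    · left
      rw [List.length_dropLast]; omega
  · refine ⟨hlen, ?_, hred⟩
    by_contra hcon
    push Not at hcon
    exact h1 ⟨lt_of_le_of_ne hlen (Ne.symm hcon.1), hcon.2⟩

end TFList

open TFList

theorem list_inj : StmListInj := by
  have key : ∀ L L' : List CT, CL L → CL L' → sq L = sq L' → ¬ L.length < L'.length := by
    intro L L' hL hL' h hlt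
    have h3 : L'.length ≠ 3 := by have := hL.1; omega
    have hne : L' ≠ [] := by intro e; subst e; simp at hlt
    rcases hL'.2.1 with h4 | h4
    · exact h3 h4
    · apply h4
      rw [getLast?_eq_sq _ hne, ← h, sq_ge L _ (by omega)]
  intro L L' hL hL' h
  have hlen : L.length = L'.length := by
    have h1 := key L L' hL hL' h
    have h2 := key L' L hL' hL h.symm
    omega
  apply List.ext_getElem hlen
  intro k h1 h2
  rw [← sq_lt L k h1, ← sq_lt L' k h2, h]

theorem list_spl : StmListSpl := by
  intro i hi L hL
  have hlen := hL.1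
  have hiL : i < L.length := by omega
  refine ⟨L.take i, L[i], L.drop (i + 1), ?_, ?_, ?_⟩
  · rw [← List.drop_eq_getElem_cons hiL, List.take_append_drop]
  · rw [List.length_take]; omega
  intro L' hN
  have e1 : (L.take i).length = i := by rw [List.length_take]; omega
  have e2 : (L.drop (i + 1)).length = L.length - (i + 1) := List.length_drop
  have hsq : sq (L.take i ++ (spl L[i]).1 :: (spl L[i]).2 :: L.drop (i + 1)) = splS i (sq L) := by
    funext k
    rw [sq_split, e1]
    unfold splS
    split_ifs with h1 h2 h4
    · rw [sq_lt _ k (by omega), sq_lt L k (by omega), List.getElem_take]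
    · rw [sq_lt L i hiL]
    · have h3 := sq_split [] (spl L[i]).2 (L.drop (i + 1)) (k - i - 1)
      simp only [List.nil_append, List.length_nil] at h3
      rw [h3, if_neg (by omega), if_pos (by omega), sq_lt L i hiL]
    · have h3 := sq_split [] (spl L[i]).2 (L.drop (i + 1)) (k - i - 1)
      simp only [List.nil_append, List.length_nil] at h3
      rw [h3, if_neg (by omega), if_neg (by omega)]
      rcases lt_or_ge (k - 1) L.length with h5 | h5
      · rw [sq_lt L _ h5, sq_lt _ _ (by rw [e2]; omega), List.getElem_drop]
        congr 1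
        omega
      · rw [sq_ge L _ h5, sq_ge _ _ (by rw [e2]; omega)]
  have hlen' : (L.take i ++ (spl L[i]).1 :: (spl L[i]).2 :: L.drop (i + 1)).length
      = L.length + 1 := by
    simp only [List.length_append, List.length_cons, e1, e2]; omega
  refine ⟨cl_norm _ L' hN (by rw [hlen']; omega) ?_ ?_, by rw [sq_norm _ _ hN, hsq]⟩
  · rw [hlen', hsq]
    intro h1 h2 h3
    have h4 : splS i (sq L) (L.length + 1 - 1) = sq L (L.length - 1) := by
      unfold splS
      rw [if_neg (by omega), if_neg (by omega), if_neg (by omega)]
      congr 1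
    rw [h4] at h2
    rcases hL.2.1 with h5 | h5
    · omega
    · apply h5
      rw [getLast?_eq_sq L (by intro e; subst e; simp at hlen), h2]
  · intro t ht
    have hr := red_spl L[i] (hL.2.2 _ (List.getElem_mem hiL))
    simp only [List.mem_append, List.mem_cons] at ht
    rcases ht with ht | rfl | rfl | ht
    · exact hL.2.2 t (List.mem_of_mem_take ht)
    · exact hr.1
    · exact hr.2
    · exact hL.2.2 t (List.mem_of_mem_drop ht)

theorem list_joi : StmListJoi := by
  intro i hi L hL
  have hlen := hL.1
  have hM : (L ++ [l0]).length = L.length + 1 := by simp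
  have hiM : i < (L ++ [l0]).length := by omega
  have hiM' : i + 1 < (L ++ [l0]).length := by omega
  refine ⟨(L ++ [l0]).take i, (L ++ [l0])[i], (L ++ [l0])[i + 1], (L ++ [l0]).drop (i + 2),
    ?_, ?_, ?_⟩
  · rw [← List.drop_eq_getElem_cons hiM', ← List.drop_eq_getElem_cons hiM, List.take_append_drop]
  · rw [List.length_take]; omega
  intro L' hN
  have e1 : ((L ++ [l0]).take i).length = i := by rw [List.length_take]; omega
  have e2 : ((L ++ [l0]).drop (i + 2)).length = L.length + 1 - (i + 2) := by
    rw [List.length_drop, hM]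
  have hsq : sq ((L ++ [l0]).take i ++ joi (L ++ [l0])[i] (L ++ [l0])[i + 1] ::
      (L ++ [l0]).drop (i + 2)) = joiS i (sq L) := by
    rw [← sq_append_l0 L]
    funext k
    rw [sq_split, e1]
    unfold joiS
    split_ifs with h1 h2
    · rw [sq_lt _ k (by omega), sq_lt (L ++ [l0]) k (by omega), List.getElem_take]
    · rw [sq_lt (L ++ [l0]) i hiM, sq_lt (L ++ [l0]) (i + 1) hiM']
    · rcases lt_or_ge (k + 1) (L ++ [l0]).length with h5 | h5
      · rw [sq_lt (L ++ [l0]) _ h5, sq_lt _ _ (by rw [e2]; omega), List.getElem_drop]
        congr 1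
        omega
      · rw [sq_ge (L ++ [l0]) _ h5, sq_ge _ _ (by rw [e2]; omega)]
  have hlen' : ((L ++ [l0]).take i ++ joi (L ++ [l0])[i] (L ++ [l0])[i + 1] ::
      (L ++ [l0]).drop (i + 2)).length = L.length := by
    simp only [List.length_append, List.length_cons] at e1 e2 ⊢
    rw [e1, e2]; omega
  refine ⟨cl_norm _ L' hN (by rw [hlen']; omega) ?_ ?_, by rw [sq_norm _ _ hN, hsq]⟩
  · rw [hlen', hsq]
    intro h1 h2 h3
    have h4 : joiS i (sq L) (L.length - 2) = sq L (L.length - 1) := by
      unfold joiS
      rw [if_neg (by omega), if_neg (by omega)]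
      congr 1
      omega
    rw [h4] at h3
    rcases hL.2.1 with h5 | h5
    · omega
    · apply h5
      rw [getLast?_eq_sq L (by intro e; subst e; simp at hlen), h3]
  · have hredM : ∀ t ∈ L ++ [l0], Red t := by
      intro t ht
      rcases List.mem_append.1 ht with h | h
      · exact hL.2.2 t h
      · rw [List.mem_singleton.1 h]; exact trivial
    intro t ht
    simp only [List.mem_append, List.mem_cons] at ht
    rcases ht with ht | rfl | ht
    · exact hredM t (List.mem_of_mem_take ht)
    · exact red_joi _ _ (hredM _ (List.getElem_mem hiM)) (hredM _ (List.getElem_mem hiM'))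
    · exact hredM t (List.mem_of_mem_drop ht)

end Pool.Agent.R652.TF
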