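import Pool.Agent.R652.TF.Defs
import Pool.Agent.R652.CA.Main

/-! # Project TF: assembly from the statements of the pieces -/

namespace Pool.Agent.R652.TF

open Pool.Agent.R652.CA List

theorem tapeC_app (L : List CT) (j : ℕ) : RelApp (tapeC L j) (tapeC L (j + 1)) := by
  refine ⟨(Inf.sep, 0) :: (toursC L ++ replicate j (Inf.en, 0)), Inf.en, ?_, ?_⟩
  · simp [tapeC, replicate_succ']
  · simp [tapeC, replicate_succ']

theorem uni_appC (hm : StmBimMap) (hc : StmUniComp) (ha : StmApp) (k : ℕ) :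
    Uni (fun ℓ ℓ' => ∃ L j, ℓ = tapeC L j ∧ ℓ' = tapeC L (j + k)) := by
  induction k with
  | zero =>
    refine uni_mono (uni_id hm) ?_
    rintro _ _ ⟨L, j, rfl, rfl⟩
    rfl
  | succ k ih =>
    refine uni_mono (hc _ _ _ ih (ha Inf inferInstance)) ?_
    rintro _ _ ⟨L, j, rfl, rfl⟩
    exact ⟨tapeC L (j + k), ⟨L, j, rfl, rfl⟩, tapeC_app L (j + k)⟩

theorem uni_trimC (hm : StmBimMap) (hc : StmUniComp) (ha : StmTrim) (k : ℕ) :
    Uni (fun ℓ ℓ' => ∃ L j, ℓ = tapeC L (j + k) ∧ ℓ' = tapeC L j) := by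
  induction k with
  | zero =>
    refine uni_mono (uni_id hm) ?_
    rintro _ _ ⟨L, j, rfl, rfl⟩
    rfl
  | succ k ih =>
    refine uni_mono (hc _ _ _ (ha Inf inferInstance) ih) ?_
    rintro _ _ ⟨L, j, rfl, rfl⟩
    exact ⟨tapeC L (j + k), tapeC_app L (j + k), ⟨L, j, rfl, rfl⟩⟩

/-- normalisation on tapes -/
theorem uni_norm (hm : StmBimMap) (hc : StmUniComp) (hi : StmUniIte) (hr : StmR) (ht : StmTrim)
    (hd : StmDrop) (htd : StmTestDrop) :
    Uni (fun ℓ ℓ' => ∃ L L', NormL L L' ∧ ℓ = tapeC L 0 ∧ ℓ' = tapeC L' 0) := by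
  obtain ⟨H, hH, hH'⟩ := hd
  obtain ⟨Q, hQ, step, q0, acc, hacc⟩ := htd
  refine uni_mono (hi Inf inferInstance Q hQ step q0 acc _ _
    (hc _ _ _ (hr Inf inferInstance H hH) (uni_trimC hm hc ht 2)) (uni_id hm)) ?_
  rintro _ _ ⟨L, L', hn, rfl, rfl⟩
  have hiff := hacc L 0
  rcases hn with ⟨h3, hlast, rfl⟩ | ⟨hnot, rfl⟩
  · rw [if_pos (hiff.mpr ⟨h3, hlast⟩)]
    have hL : L.dropLast ++ [l0] = L := by
      obtain ⟨K, rfl⟩ := getLast?_eq_some_iff.mp hlast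
      simp
    refine ⟨tapeC L.dropLast 2, ?_, ⟨_, 0, rfl, rfl⟩⟩
    have := hH' L.dropLast 0
    rwa [hL] at this
  · rw [if_neg (fun h => hnot (hiff.mp h))]

/-- splitting on tapes -/
theorem uni_spl (hm : StmBimMap) (hc : StmUniComp) (hi : StmUniIte) (hr : StmR) (ha : StmApp)
    (ht : StmTrim) (hs : StmSplit) (he : StmExpandC) (htn : StmTestNode) (i : ℕ) (hi1 : i ≤ 1) :
    Uni (fun ℓ ℓ' => ∃ L1 t L2, L1.length = i ∧ ℓ = tapeC (L1 ++ t :: L2) 0 ∧
      ℓ' = tapeC (L1 ++ (spl t).1 :: (spl t).2 :: L2) 0) := by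
  obtain ⟨H, hH, hH'⟩ := hs i hi1
  obtain ⟨E, hE, hE'⟩ := he i hi1
  obtain ⟨Q, hQ, step, q0, acc, hacc⟩ := htn i hi1
  refine uni_mono (hi Inf inferInstance Q hQ step q0 acc _ _
    (hc _ _ _ (hr Inf inferInstance H hH) (uni_trimC hm hc ht 2))
    (hc _ _ _ (uni_appC hm hc ha 4) (hr Inf inferInstance E hE))) ?_
  rintro _ _ ⟨L1, t, L2, hlen, rfl, rfl⟩
  have hiff := hacc L1 t L2 0 hlen
  cases t with
  | nd l r =>
    rw [if_pos (hiff.mpr ⟨l, r, rfl⟩)]
    exact ⟨_, hH' L1 l r L2 0 hlen, ⟨_, 0, rfl, rfl⟩⟩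
  | lf a b =>
    rw [if_neg (fun h => by obtain ⟨l, r, h⟩ := hiff.mp h; cases h)]
    exact ⟨_, ⟨_, 0, rfl, rfl⟩, hE' L1 a b L2 0 hlen⟩

/-- joining on tapes -/
theorem uni_joi (hm : StmBimMap) (hc : StmUniComp) (hi : StmUniIte) (hr : StmR) (ha : StmApp)
    (ht : StmTrim) (hs : StmJoin) (he : StmReduce) (htn : StmTestRed) (i : ℕ) (hi1 : i ≤ 1) :
    Uni (fun ℓ ℓ' => ∃ L1 l r L2, L1.length = i ∧ ℓ = tapeC (L1 ++ l :: r :: L2) 0 ∧
      ℓ' = tapeC (L1 ++ joi l r :: L2) 0) := by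
  obtain ⟨H, hH, hH'⟩ := hs i hi1
  obtain ⟨E, hE, hE'⟩ := he i hi1
  obtain ⟨Q, hQ, step, q0, acc, hacc⟩ := htn i hi1
  refine uni_mono (hi Inf inferInstance Q hQ step q0 acc _ _
    (hc _ _ _ (hr Inf inferInstance E hE) (uni_trimC hm hc ht 4))
    (hc _ _ _ (uni_appC hm hc ha 2) (hr Inf inferInstance H hH))) ?_
  rintro _ _ ⟨L1, l, r, L2, hlen, rfl, rfl⟩
  have hiff := hacc L1 l r L2 0 hlen
  by_cases hpat : ∃ a b, l = CT.lf (a + 1) 0 ∧ r = CT.lf 0 (b + 1)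
  · rw [if_pos (hiff.mpr hpat)]
    obtain ⟨a, b, rfl, rfl⟩ := hpat
    refine ⟨_, hE' L1 a b L2 0 hlen, ⟨_, 0, rfl, ?_⟩⟩
    simp [joi]
  · rw [if_neg (fun h => hpat (hiff.mp h))]
    have hj : joi l r = CT.nd l r := by
      unfold joi
      split
      · rename_i a b
        exact absurd ⟨a, b, rfl, rfl⟩ hpat
      · rfl
    rw [hj]
    exact ⟨_, ⟨_, 0, rfl, rfl⟩, hH' L1 l r L2 0 hlen⟩

theorem uni_appendL (hm : StmBimMap) (hc : StmUniComp) (hr : StmR) (ha : StmApp)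
    (hs : StmAppendC) : Uni (fun ℓ ℓ' => ∃ L, ℓ = tapeC L 0 ∧ ℓ' = tapeC (L ++ [l0]) 0) := by
  obtain ⟨H, hH, hH'⟩ := hs
  refine uni_mono (hc _ _ _ (uni_appC hm hc ha 2) (hr Inf inferInstance H hH)) ?_
  rintro _ _ ⟨L, rfl, rfl⟩
  exact ⟨_, ⟨_, 0, rfl, rfl⟩, hH' L 0⟩

theorem exists_norm (L : List CT) : ∃ L', NormL L L' := by
  by_cases h : 3 < L.length ∧ L.getLast? = some l0
  · exact ⟨_, Or.inl ⟨h.1, h.2, rfl⟩⟩
  · exact ⟨_, Or.inr ⟨h, rfl⟩⟩

theorem closure_top : Submonoid.closure ({g0, g1, g0⁻¹, g1⁻¹} : Set FG) = ⊤ := by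
  have h : ∀ g : FG, g ∈ Submonoid.closure ({g0, g1, g0⁻¹, g1⁻¹} : Set FG) ∧
      g⁻¹ ∈ Submonoid.closure ({g0, g1, g0⁻¹, g1⁻¹} : Set FG) := by
    intro g
    induction g using PresentedGroup.induction_on with
    | _ z =>
      induction z using FreeGroup.induction_on with
      | C1 => simp [Submonoid.one_mem]
      | of i =>
        fin_cases i
        · exact ⟨Submonoid.subset_closure (by left; rfl),
            Submonoid.subset_closure (by right; right; left; rfl)⟩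
        · exact ⟨Submonoid.subset_closure (by right; left; rfl),
            Submonoid.subset_closure (by right; right; right; rfl)⟩
      | inv_of i ih =>
        rw [map_inv, inv_inv]
        exact ⟨ih.2, ih.1⟩
      | mul x y hx hy =>
        rw [map_mul, mul_inv_rev]
        exact ⟨Submonoid.mul_mem _ hx.1 hy.1, Submonoid.mul_mem _ hy.2 hx.2⟩
  rw [eq_top_iff]
  intro g _
  exact (h g).1

theorem main_of (hm : StmBimMap) (hc : StmUniComp) (hi : StmUniIte) (hr : StmR) (hA : StmApp)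
    (ha : StmTrim) (hact : StmAct) (hli : StmListInj) (hls : StmListSpl) (hlj : StmListJoi)
    (hti : StmTapeInjC) (hsp : StmSplit) (hex : StmExpandC) (hjo : StmJoin) (hre : StmReduce)
    (hap : StmAppendC) (hdr : StmDrop) (htn : StmTestNode) (htr : StmTestRed)
    (htd : StmTestDrop) (htm : StmTM) (hau : StmAuto) : StmMainF := by
  obtain ⟨a, a1, amul, axx, axi, afree⟩ := hact
  -- states
  let St : FG → List CT → Prop := fun g L => CL L ∧ sq L = (a base g).1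
  have afree' : ∀ g h : FG, a base g = a base h → g = h := by
    intro g h hgh
    have : a base (g * h⁻¹) = base := by
      rw [amul, hgh, ← amul, mul_inv_cancel, a1]
    have := afree _ this
    exact mul_inv_eq_one.mp this
  have stInj : ∀ g L L', St g L → St g L' → L = L' := fun g L L' h h' =>
    hli L L' h.1 h'.1 (h.2.trans h'.2.symm)
  have stInj' : ∀ g h L, St g L → St h L → g = h := fun g h L hg hh =>
    afree' g h (Subtype.ext (hg.2.symm.trans hh.2))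
  have st1 : St 1 [l0, l0, l0] := by
    refine ⟨⟨by simp, Or.inl (by simp), ?_⟩, ?_⟩
    · intro t ht
      simp at ht
      subst ht
      trivial
    · rw [a1]
      funext k
      simp only [sq, base]
      match k with
      | 0 => rfl
      | 1 => rfl
      | 2 => rfl
      | k + 3 => simp
  have hx0 : xx 0 = g0 := rfl
  have hx1 : xx 1 = g1 := by simp [xx]
  -- one step
  have stSpl : ∀ i ≤ 1, ∀ g L, St g L → ∃ L1 t L2 L', L = L1 ++ t :: L2 ∧ L1.length = i ∧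
      NormL (L1 ++ (spl t).1 :: (spl t).2 :: L2) L' ∧ St (g * xx i) L' := by
    intro i hi1 g L hst
    obtain ⟨L1, t, L2, rfl, hlen, h⟩ := hls i hi1 L hst.1
    obtain ⟨L', hL'⟩ := exists_norm (L1 ++ (spl t).1 :: (spl t).2 :: L2)
    obtain ⟨h1, h2⟩ := h L' hL'
    refine ⟨L1, t, L2, L', rfl, hlen, hL', h1, ?_⟩
    rw [h2, amul, axx, hst.2]
  have stJoi : ∀ i ≤ 1, ∀ g L, St g L → ∃ L1 l r L2 L', L ++ [l0] = L1 ++ l :: r :: L2 ∧
      L1.length = i ∧ NormL (L1 ++ joi l r :: L2) L' ∧ St (g * (xx i)⁻¹) L' := by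
    intro i hi1 g L hst
    obtain ⟨L1, l, r, L2, hL, hlen, h⟩ := hlj i hi1 L hst.1
    obtain ⟨L', hL'⟩ := exists_norm (L1 ++ joi l r :: L2)
    obtain ⟨h1, h2⟩ := h L' hL'
    refine ⟨L1, l, r, L2, L', hL, hlen, hL', h1, ?_⟩
    rw [h2, amul, axi, hst.2]
  have hgenmem : ∀ s ∈ ({g0, g1, g0⁻¹, g1⁻¹} : Set FG), ∃ i ≤ 1, s = xx i ∨ s = (xx i)⁻¹ := by
    intro s hs
    rcases hs with rfl | rfl | rfl | hs
    · exact ⟨0, by omega, Or.inl hx0.symm⟩
    · exact ⟨1, le_refl _, Or.inl hx1.symm⟩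
    · exact ⟨0, by omega, Or.inr (by rw [hx0])⟩
    · rw [Set.mem_singleton_iff] at hs
      subst hs
      exact ⟨1, le_refl _, Or.inr (by rw [hx1])⟩
  have hsurj : ∀ g : FG, ∃ L, St g L := by
    intro g
    have hg : g ∈ Submonoid.closure ({g0, g1, g0⁻¹, g1⁻¹} : Set FG) := by
      rw [closure_top]; trivial
    induction hg using Submonoid.closure_induction_right with
    | one => exact ⟨_, st1⟩
    | mul_right g hg s hs ih =>
      obtain ⟨L, hL⟩ := ih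
      obtain ⟨i, hi1, rfl | rfl⟩ := hgenmem s hs
      · obtain ⟨_, _, _, L', _, _, _, h⟩ := stSpl i hi1 g L hL
        exact ⟨L', h⟩
      · obtain ⟨_, _, _, _, L', _, _, _, h⟩ := stJoi i hi1 g L hL
        exact ⟨L', h⟩
  -- relation on tapes
  let RelF : FG → List (Inf × ℕ) → List (Inf × ℕ) → Prop := fun s ℓ ℓ' =>
    ∃ g L L', St g L ∧ St (g * s) L' ∧ ℓ = tapeC L 0 ∧ ℓ' = tapeC L' 0
  have huni : ∀ s : FG, Uni (RelF s) := by
    intro g
    have hg : g ∈ Submonoid.closure ({g0, g1, g0⁻¹, g1⁻¹} : Set FG) := by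
      rw [closure_top]; trivial
    induction hg using Submonoid.closure_induction with
    | mem s hs =>
      obtain ⟨i, hi1, rfl | rfl⟩ := hgenmem s hs
      · refine uni_mono (hc _ _ _ (uni_spl hm hc hi hr hA ha hsp hex htn i hi1)
          (uni_norm hm hc hi hr ha hdr htd)) ?_
        rintro _ _ ⟨g, L, L', hL, hL', rfl, rfl⟩
        obtain ⟨L1, t, L2, L'', rfl, hlen, hn, hst⟩ := stSpl i hi1 g L hL
        obtain rfl := stInj _ _ _ hL' hst
        exact ⟨_, ⟨L1, t, L2, hlen, rfl, rfl⟩, ⟨_, L', hn, rfl, rfl⟩⟩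
      · refine uni_mono (hc _ _ _ (uni_appendL hm hc hr hA hap)
          (hc _ _ _ (uni_joi hm hc hi hr hA ha hjo hre htr i hi1)
            (uni_norm hm hc hi hr ha hdr htd))) ?_
        rintro _ _ ⟨g, L, L', hL, hL', rfl, rfl⟩
        obtain ⟨L1, l, r, L2, L'', hLL, hlen, hn, hst⟩ := stJoi i hi1 g L hL
        obtain rfl := stInj _ _ _ hL' hst
        refine ⟨_, ⟨L, rfl, rfl⟩, _, ⟨L1, l, r, L2, hlen, by rw [hLL], rfl⟩,
          ⟨_, L', hn, rfl, rfl⟩⟩
    | one =>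
      refine uni_mono (uni_id hm) ?_
      rintro _ _ ⟨g, L, L', hL, hL', rfl, rfl⟩
      rw [mul_one] at hL'
      rw [stInj _ _ _ hL hL']
    | mul s t _ _ ihs iht =>
      refine uni_mono (hc _ _ _ ihs iht) ?_
      rintro _ _ ⟨g, L, L', hL, hL', rfl, rfl⟩
      obtain ⟨K, hK⟩ := hsurj (g * s)
      refine ⟨tapeC K 0, ⟨g, L, K, hL, hK, rfl, rfl⟩, ⟨g * s, K, L', hK, ?_, rfl, rfl⟩⟩
      rwa [mul_assoc]
  intro Sg
  choose F c hF hFc using huni
  choose LL hLL using hsurj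
  let Lg : Set (List (Letter Inf)) := {w | ∃ g, w = enc (tapeC (LL g) 0)}
  have hL : ∀ w : Lg, ∃ g, w.1 = enc (tapeC (LL g) 0) := fun w => w.2
  choose gg hgg using hL
  have hgg_of : ∀ (w : Lg) (g : FG), w.1 = enc (tapeC (LL g) 0) → gg w = g := by
    intro w g h
    have h1 := hti _ _ ((hgg w).symm.trans h)
    exact stInj' _ _ (LL g) (h1 ▸ hLL (gg w)) (hLL g)
  refine ⟨Letter Inf, inferInstance, Lg, gg,
    fun g w => unpad (F g (w.map some ++ replicate (c g) none)), ⟨?_, ?_⟩, ?_, ?_⟩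
  · intro w w' h
    apply Subtype.ext
    rw [hgg w, hgg w', h]
  · intro g
    exact ⟨⟨enc (tapeC (LL g) 0), g, rfl⟩, hgg_of _ g rfl⟩
  · intro s _
    exact ⟨hau (Letter Inf) inferInstance (F s) (hF s) (c s),
      htm (Letter Inf) inferInstance (F s) (hF s) (c s)⟩
  · intro s _ w
    obtain ⟨j', _, hj'⟩ := hFc s _ _
      ⟨gg w, LL (gg w), LL (gg w * s), hLL _, hLL _, rfl, rfl⟩ 0
    have hval : unpad (F s (w.1.map some ++ replicate (c s) none)) =
        enc (tapeC (LL (gg w * s)) 0) := by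
      rw [hgg w]
      rw [Nat.zero_add] at hj'
      rw [hj', unpad_map]
    refine ⟨?_, ?_⟩
    · change unpad (F s (w.1.map some ++ replicate (c s) none)) ∈ Lg
      rw [hval]
      exact ⟨_, rfl⟩
    · exact hgg_of _ _ hval

end Pool.Agent.R652.TF
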