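import Pool.Agent.R652.TF.Defs

/-!
# TF-POS (MP_7161f1_al): positive words are determined by their expansions
-/

namespace Pool.Agent.R652.TF

open List

namespace Pos

theorem pw_append (p q : List ℕ) : pw (p ++ q) = pw p * pw q := by
  unfold pw
  rw [List.map_append, List.prod_append]

theorem pw_single (i : ℕ) : pw [i] = xx i := by
  simp [pw]

theorem lb_append (p : List ℕ) (i : ℕ) : lb (p ++ [i]) = exl i (lb p) := by
  unfold lb
  rw [List.foldl_append]
  rfl

theorem exl_lt {i k : ℕ} (s : ℕ → ℕ × ℕ) (h : k < i) : exl i s k = s k := by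
  unfold exl
  rw [if_pos h]

theorem exl_eq (i : ℕ) (s : ℕ → ℕ × ℕ) : exl i s i = ((s i).1 + 1, 0) := by
  unfold exl
  rw [if_neg (lt_irrefl i), if_pos rfl]

theorem exl_succ (i : ℕ) (s : ℕ → ℕ × ℕ) : exl i s (i + 1) = (0, (s i).2 + 1) := by
  unfold exl
  rw [if_neg (by omega), if_neg (by omega), if_pos rfl]

theorem exl_gt {i k : ℕ} (s : ℕ → ℕ × ℕ) (h : i + 1 < k) : exl i s k = s (k - 1) := by
  unfold exl
  rw [if_neg (by omega), if_neg (by omega), if_neg (by omega)]

theorem exl_comm {i j : ℕ} (h : i < j) (s : ℕ → ℕ × ℕ) :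
    exl i (exl j s) = exl (j + 1) (exl i s) := by
  funext k
  rcases lt_trichotomy k i with hk | hk | hk
  · rw [exl_lt _ hk, exl_lt _ (by omega), exl_lt _ (by omega), exl_lt _ hk]
  · subst hk
    rw [exl_eq, exl_lt _ (by omega), exl_lt _ (by omega), exl_eq]
  · rcases eq_or_lt_of_le (Nat.succ_le_of_lt hk) with hk' | hk'
    · have hk'' : k = i + 1 := hk'.symm
      subst hk''
      rw [exl_succ, exl_lt _ (by omega), exl_lt _ (by omega), exl_succ]
    · have hk2 : i + 1 < k := hk'
      rw [exl_gt _ hk2]
      rcases lt_trichotomy k (j + 1) with h1 | h1 | h1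
      · rw [exl_lt _ (by omega), exl_lt _ h1, exl_gt _ hk2]
      · subst h1
        rw [show j + 1 - 1 = j by omega, exl_eq, exl_eq, exl_gt _ hk2,
          show j + 1 - 1 = j by omega]
      · rcases eq_or_lt_of_le (Nat.succ_le_of_lt h1) with h2 | h2
        · have h3 : k = j + 1 + 1 := h2.symm
          subst h3
          rw [show j + 1 + 1 - 1 = j + 1 by omega, exl_succ, exl_succ, exl_gt _ (by omega),
            show j + 1 - 1 = j by omega]
        · have h3 : j + 1 + 1 < k := h2
          rw [exl_gt _ (by omega), exl_gt _ h3, exl_gt _ (by omega)]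

theorem exl_inj {i : ℕ} {s s' : ℕ → ℕ × ℕ} (h : exl i s = exl i s') : s = s' := by
  funext k
  rcases lt_trichotomy k i with hk | hk | hk
  · have := congrFun h k
    rwa [exl_lt _ hk, exl_lt _ hk] at this
  · subst hk
    have h1 := congrFun h k
    have h2 := congrFun h (k + 1)
    rw [exl_eq, exl_eq] at h1
    rw [exl_succ, exl_succ] at h2
    have e1 := congrArg Prod.fst h1
    have e2 := congrArg Prod.snd h2
    simp only at e1 e2
    exact Prod.ext (by omega) (by omega)
  · have := congrFun h (k + 1)
    rwa [exl_gt _ (by omega), exl_gt _ (by omega), Nat.add_sub_cancel] at this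

theorem lemC (hrel : StmRel) : ∀ (q : List ℕ) (i a b : ℕ), lb q i = (a + 1, 0) →
    lb q (i + 1) = (0, b + 1) →
    ∃ q' : List ℕ, pw q = pw (q' ++ [i]) ∧ lb q = lb (q' ++ [i]) := by
  intro q
  induction q using List.reverseRecOn with
  | nil =>
    intro i a b h1 _
    exfalso
    have : (0, 0) = ((a + 1, 0) : ℕ × ℕ) := h1
    simp at this
  | append_singleton q1 j ih =>
    intro i a b h1 h2
    rw [lb_append] at h1 h2
    rcases lt_trichotomy j i with hj | hj | hj
    · rcases eq_or_lt_of_le (Nat.succ_le_of_lt hj) with hj' | hj'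
      · exfalso
        have e : i = j + 1 := hj'.symm
        subst e
        rw [exl_succ] at h1
        have := congrArg Prod.fst h1
        simp at this
      · have hj2 : j + 1 < i := hj'
        obtain ⟨m, rfl⟩ : ∃ m, i = m + 1 := ⟨i - 1, by omega⟩
        rw [exl_gt _ hj2, Nat.add_sub_cancel] at h1
        rw [exl_gt _ (by omega), Nat.add_sub_cancel] at h2
        obtain ⟨q2, e1, e2⟩ := ih m a b h1 h2
        refine ⟨q2 ++ [j], ?_, ?_⟩
        · rw [pw_append, e1, pw_append, pw_append, pw_append, pw_single, pw_single, pw_single,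
            mul_assoc, mul_assoc, hrel j m (by omega)]
        · rw [lb_append, e2, lb_append, lb_append, lb_append, exl_comm (by omega)]
    · subst hj
      exact ⟨q1, rfl, rfl⟩
    · rcases eq_or_lt_of_le (Nat.succ_le_of_lt hj) with hj' | hj'
      · exfalso
        have e : j = i + 1 := hj'.symm
        subst e
        rw [exl_eq] at h2
        have := congrArg Prod.fst h2
        simp at this
      · have hj2 : i + 1 < j := hj'
        rw [exl_lt _ hj] at h1
        rw [exl_lt _ hj2] at h2
        obtain ⟨q2, e1, e2⟩ := ih i a b h1 h2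
        obtain ⟨m, rfl⟩ : ∃ m, j = m + 1 := ⟨j - 1, by omega⟩
        refine ⟨q2 ++ [m], ?_, ?_⟩
        · rw [pw_append, e1, pw_append, pw_append, pw_append, pw_single, pw_single, pw_single,
            mul_assoc, mul_assoc, hrel i m (by omega)]
        · rw [lb_append, e2, lb_append, lb_append, lb_append]
          exact (exl_comm (by omega) _).symm

end Pos

open Pos in
theorem pos_thm : StmRel → StmPos := by
  intro hrel p
  induction p using List.reverseRecOn with
  | nil =>
    intro q h
    induction q using List.reverseRecOn with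
    | nil => rfl
    | append_singleton q1 j _ =>
      exfalso
      rw [lb_append] at h
      have h1 := congrFun h j
      rw [exl_eq] at h1
      have : (0, 0) = (((lb q1 j).1 + 1, 0) : ℕ × ℕ) := h1
      simp at this
  | append_singleton p1 i ih =>
    intro q h
    rw [lb_append] at h
    have h1 := congrFun h i
    have h2 := congrFun h (i + 1)
    rw [exl_eq] at h1
    rw [exl_succ] at h2
    obtain ⟨q', e1, e2⟩ := lemC hrel q i _ _ h1.symm h2.symm
    rw [e2, lb_append] at h
    have h3 := ih q' (exl_inj h)
    rw [pw_append, e1, pw_append, h3]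

end Pool.Agent.R652.TF
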