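import Pool.Agent.R652.TF.Defs

/-!
# TF-RED: joining a reducible pair of trees on the tape
-/

namespace Pool.Agent.R652.TF

open Pool.Agent.R652.CA List

namespace RED

/-- states of the transducer -/
inductive Qr
  | a2 | a1 | b | c | d | e | f | g
  deriving DecidableEq

instance : Fintype Qr :=
  ⟨{Qr.a2, Qr.a1, Qr.b, Qr.c, Qr.d, Qr.e, Qr.f, Qr.g}, by intro x; cases x <;> decide⟩

/-- the transducer -/
def stp : Qr → Inf × Fin 64 × Bool → Qr × List (Inf × ℤ)
  | .a2, x => (if x.1 = Inf.sep then .a1 else .a2, [(x.1, 0)])
  | .a1, x => (if x.1 = Inf.sep then .b else .a1, [(x.1, 0)])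
  | .b, _ => (.c, [])
  | .c, x => (if x.1 = Inf.lf then .d else .c, [(x.1, 0)])
  | .d, _ => (.e, [])
  | .e, _ => (.f, [])
  | .f, _ => (.g, [])
  | .g, x => (.g, [(x.1, 0)])

/-- number of cells which can still be dropped -/
def K : Qr → ℕ
  | .a2 => 4
  | .a1 => 4
  | .b => 4
  | .c => 3
  | .d => 3
  | .e => 2
  | .f => 1
  | .g => 0

theorem len_le (u : List (Inf × ℕ)) : ∀ q, (trun stp q u).length ≤ u.length ∧
    u.length ≤ (trun stp q u).length + K q := by
  induction u with
  | nil => intro q; simp [trun]
  | cons x w ih =>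
    intro q
    cases q with
    | a2 =>
      by_cases h : x.1 = Inf.sep
      · have := ih .a1
        simp only [trun, stp, h, K] at this ⊢
        simp
        omega
      · have := ih .a2
        simp only [trun, stp, h, K] at this ⊢
        simp
        omega
    | a1 =>
      by_cases h : x.1 = Inf.sep
      · have := ih .b
        simp only [trun, stp, h, K] at this ⊢
        simp
        omega
      · have := ih .a1
        simp only [trun, stp, h, K] at this ⊢
        simp
        omega
    | b =>
      have := ih .c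
      simp only [trun, stp, K] at this ⊢
      simp
      omega
    | c =>
      by_cases h : x.1 = Inf.lf
      · have := ih .d
        simp only [trun, stp, h, K] at this ⊢
        simp
        omega
      · have := ih .c
        simp only [trun, stp, h, K] at this ⊢
        simp
        omega
    | d =>
      have := ih .e
      simp only [trun, stp, K] at this ⊢
      simp
      omega
    | e =>
      have := ih .f
      simp only [trun, stp, K] at this ⊢
      simp
      omega
    | f =>
      have := ih .g
      simp only [trun, stp, K] at this ⊢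
      simp
      omega
    | g =>
      have := ih .g
      simp only [trun, stp, K] at this ⊢
      simp
      omega

theorem tr_g (u : List (Inf × ℕ)) : trun stp .g u = u := by
  induction u with
  | nil => rfl
  | cons x w ih =>
    simp only [trun, stp]
    rw [ih]
    simp

theorem tr_a1 (w r : List (Inf × ℕ)) (hw : ∀ x ∈ w, x.1 ≠ Inf.sep) :
    trun stp .a1 (w ++ (Inf.sep, 0) :: r) = w ++ (Inf.sep, 0) :: trun stp .b r := by
  induction w with
  | nil => simp [trun, stp]
  | cons x w ih =>
    have hx : x.1 ≠ Inf.sep := hw x (by simp)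
    have := ih (fun y hy => hw y (by simp [hy]))
    simp only [List.cons_append, trun, stp, hx, if_false]
    rw [this]
    simp

theorem tr_c (a : ℕ) (r : List (Inf × ℕ)) :
    trun stp .c (replicate a (Inf.po, 0) ++ (Inf.lf, 0) :: r) =
      replicate a (Inf.po, 0) ++ (Inf.lf, 0) :: trun stp .d r := by
  induction a with
  | zero => simp [trun, stp]
  | succ a ih =>
    simp only [List.replicate_succ, List.cons_append, trun, stp]
    rw [if_neg (by decide), ih]
    simp

theorem nosep (t : CT) : ∀ d, ∀ x ∈ tourC t d, x.1 ≠ Inf.sep := by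
  induction t with
  | lf a b =>
    intro d x hx
    simp only [tourC, List.mem_append, List.mem_cons, List.mem_replicate] at hx
    rcases hx with h | h | h
    · rw [h.2]; simp
    · rw [h]; simp
    · rw [h.2]; simp
  | nd l r ihl ihr =>
    intro d x hx
    simp only [tourC, List.mem_append, List.mem_cons, List.mem_nil_iff, or_false] at hx
    rcases hx with h | h | h | h | h
    · rw [h]; simp
    · exact ihl _ x h
    · rw [h]; simp
    · exact ihr _ x h
    · rw [h]; simp

/-- the part of the tape from tree `i` on -/
theorem tr_b (a b : ℕ) (r : List (Inf × ℕ)) :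
    trun stp .b (tourC (CT.lf (a + 1) 0) 0 ++ (Inf.sep, 0) ::
      (tourC (CT.lf 0 (b + 1)) 0 ++ (Inf.sep, 0) :: r)) =
      tourC (CT.lf a b) 0 ++ (Inf.sep, 0) :: r := by
  have e1 : tourC (CT.lf (a + 1) 0) 0 ++ (Inf.sep, 0) ::
      (tourC (CT.lf 0 (b + 1)) 0 ++ (Inf.sep, 0) :: r) =
      (Inf.po, 0) :: (replicate a (Inf.po, 0) ++ (Inf.lf, 0) :: (Inf.sep, 0) :: (Inf.lf, 0) ::
        (Inf.pc, 0) :: (replicate b (Inf.pc, 0) ++ (Inf.sep, 0) :: r)) := by
    simp [tourC, List.replicate_succ]
  rw [e1]
  simp only [trun, stp]
  rw [tr_c]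
  simp only [trun, stp]
  rw [tr_g]
  simp [tourC]

end RED

open RED in
theorem reduce_thm : StmTrn → StmValidC → StmReduce := by
  intro hT hV i hi
  obtain ⟨H, hH, hR⟩ := hT Inf Qr inferInstance inferInstance stp
    (if i = 0 then .a1 else .a2) Inf.en
    (by
      intro q a y hy
      have : y.2 = 0 := by
        cases q <;> simp [stp] at hy <;> first | exact hy.elim | simp [hy]
      rw [this]; norm_num)
    (by
      intro q i d y hy
      have : y.2 = 0 := by
        cases q <;> simp [stp] at hy <;> first | exact hy.elim | simp [hy]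
      rw [this])
  refine ⟨H, hH, ?_⟩
  intro L1 a b L2 j hL
  refine hR _ _ 4 0 (hV _ _) (hV _ _) ?_ ?_ ?_
  · simp [tapeC, toursC, tourC]
    omega
  · intro u _
    have h := len_le u (if i = 0 then .a1 else .a2)
    have hK : K (if i = 0 then .a1 else .a2) = 4 := by split_ifs <;> rfl
    rw [hK] at h
    rw [abs_le]
    omega
  · have hen : replicate (j + 1) ((Inf.en, 0) : Inf × ℕ) ++ replicate 4 (Inf.en, 0) =
        replicate (j + 4 + 1) (Inf.en, 0) := by
      rw [← List.replicate_add]
    have key : trun stp .b (toursC (CT.lf (a + 1) 0 :: CT.lf 0 (b + 1) :: L2) ++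
        replicate (j + 1) (Inf.en, 0)) ++ replicate 4 (Inf.en, 0) =
        toursC (CT.lf a b :: L2) ++ replicate (j + 4 + 1) (Inf.en, 0) := by
      have e1 : toursC (CT.lf (a + 1) 0 :: CT.lf 0 (b + 1) :: L2) ++
          replicate (j + 1) (Inf.en, 0) = tourC (CT.lf (a + 1) 0) 0 ++ (Inf.sep, 0) ::
            (tourC (CT.lf 0 (b + 1)) 0 ++ (Inf.sep, 0) ::
              (toursC L2 ++ replicate (j + 1) (Inf.en, 0))) := by
        simp [toursC]
      rw [e1, tr_b, ← hen]
      simp [toursC]
    rcases Nat.lt_or_ge i 1 with h0 | h1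
    · have hi0 : i = 0 := by omega
      subst hi0
      have hL1 : L1 = [] := List.length_eq_zero_iff.1 hL
      subst hL1
      simp only [if_true, List.nil_append, tapeC, List.replicate_zero, List.append_nil]
      simp only [trun, stp, if_true]
      simp only [List.append_assoc] at key ⊢
      rw [key]
      simp
    · have hi1 : i = 1 := by omega
      subst hi1
      obtain ⟨t, rfl⟩ := List.length_eq_one_iff.1 hL
      simp only [tapeC, List.replicate_zero, List.append_nil]
      have e2 : ∀ L : List CT, toursC ([t] ++ L) = tourC t 0 ++ (Inf.sep, 0) :: toursC L := by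
        intro L; simp [toursC]
      rw [e2, e2]
      simp only [trun, stp, if_true, one_ne_zero, if_false]
      have e3 : ∀ X Y : List (Inf × ℕ), (tourC t 0 ++ (Inf.sep, 0) :: X) ++ Y =
          tourC t 0 ++ (Inf.sep, 0) :: (X ++ Y) := by intro X Y; simp
      rw [e3, e3, tr_a1 _ _ (nosep t 0)]
      have e4 : ∀ X Y Z : List (Inf × ℕ), (X ++ (Inf.sep, 0) :: Y) ++ Z =
          X ++ (Inf.sep, 0) :: (Y ++ Z) := by intro X Y Z; simp
      rw [List.append_assoc, e4, key]
      simp

end Pool.Agent.R652.TF
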