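import Pool.Agent.R652.TF.Defs

/-!
# Project TF, piece REL: the infinite presentation of Thompson's group F
-/

namespace Pool.Agent.R652.TF

namespace Rel

/-- the element `c = x_0 x_1⁻¹` -/
def cc : FG := g0 * g1⁻¹

theorem xx_zero : xx 0 = g0 := rfl

theorem xx_succ (n : ℕ) : xx (n + 1) = g0⁻¹ ^ n * g1 * g0 ^ n := rfl

theorem xx_one : xx 1 = g1 := by rw [xx_succ, pow_zero, pow_zero, one_mul, mul_one]

theorem conj0 (n : ℕ) : g0⁻¹ * xx (n + 1) * g0 = xx (n + 2) := by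
  rw [xx_succ, xx_succ, pow_succ' g0⁻¹ n, pow_succ g0 n]
  simp only [mul_assoc]

theorem xx_two : xx 2 = g0⁻¹ * g1 * g0 := by
  rw [← conj0 0, zero_add, xx_one]

theorem xx_three : xx 3 = g0⁻¹ ^ 2 * g1 * g0 ^ 2 := rfl

theorem rel_one : cc * xx 2 * cc⁻¹ * (xx 2)⁻¹ = 1 := by
  have h : (PresentedGroup.mk ({rel1, rel2} : Set (FreeGroup (Fin 2)))) rel1 = 1 :=
    PresentedGroup.one_of_mem (Set.mem_insert _ _)
  rw [rel1, cmt] at h
  simp only [map_mul, map_inv] at h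
  rw [xx_two]
  exact h

theorem rel_two : cc * xx 3 * cc⁻¹ * (xx 3)⁻¹ = 1 := by
  have h : (PresentedGroup.mk ({rel1, rel2} : Set (FreeGroup (Fin 2)))) rel2 = 1 :=
    PresentedGroup.one_of_mem (Set.mem_insert_of_mem _ (Set.mem_singleton _))
  rw [rel2, cmt] at h
  simp only [map_mul, map_inv, map_pow] at h
  rw [xx_three]
  exact h

theorem comm_of {G : Type*} [Group G] {a b : G} (h : a * b * a⁻¹ * b⁻¹ = 1) : a * b = b * a := by
  have h1 : a * b * a⁻¹ = b := mul_inv_eq_one.1 h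
  exact mul_inv_eq_iff_eq_mul.1 h1

/-- in every group: `x y⁻¹` commutes with `z` iff the conjugates of `z` by `x` and `y` agree -/
theorem comm_iff {G : Type*} [Group G] (x y z : G) :
    (x * y⁻¹) * z = z * (x * y⁻¹) ↔ y⁻¹ * z * y = x⁻¹ * z * x := by
  constructor
  · intro h
    calc y⁻¹ * z * y = x⁻¹ * ((x * y⁻¹) * z) * y := by group
      _ = x⁻¹ * (z * (x * y⁻¹)) * y := by rw [h]
      _ = x⁻¹ * z * x := by group
  · intro h
    calc (x * y⁻¹) * z = x * (y⁻¹ * z * y) * y⁻¹ := by group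
      _ = x * (x⁻¹ * z * x) * y⁻¹ := by rw [h]
      _ = z * (x * y⁻¹) := by group

theorem cc_comm : ∀ n : ℕ, cc * xx (n + 2) = xx (n + 2) * cc := by
  intro n
  induction n using Nat.strong_induction_on with
  | _ n ih =>
    match n, ih with
    | 0, _ => exact comm_of rel_one
    | 1, _ => exact comm_of rel_two
    | m + 2, ih =>
      have h0 := ih m (by omega)
      have h1 := ih (m + 1) (by omega)
      have h2 := ih 0 (by omega)
      rw [zero_add] at h2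
      have e1 : g1⁻¹ * xx (m + 2) * g1 = xx (m + 3) := by
        rw [(comm_iff g0 g1 (xx (m + 2))).1 h0]
        exact conj0 (m + 1)
      have e2 : (xx 2)⁻¹ * xx (m + 3) * xx 2 = xx (m + 4) := by
        have e3 : g0⁻¹ * xx (m + 2) * g0 = xx (m + 3) := conj0 (m + 1)
        calc (xx 2)⁻¹ * xx (m + 3) * xx 2
            = (g0⁻¹ * g1 * g0)⁻¹ * (g0⁻¹ * xx (m + 2) * g0) * (g0⁻¹ * g1 * g0) := by
              rw [xx_two, e3]
          _ = g0⁻¹ * (g1⁻¹ * xx (m + 2) * g1) * g0 := by group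
          _ = g0⁻¹ * xx (m + 3) * g0 := by rw [e1]
          _ = xx (m + 4) := conj0 (m + 2)
      show cc * xx (m + 4) = xx (m + 4) * cc
      have h1' : cc * xx (m + 3) = xx (m + 3) * cc := h1
      rw [← e2]
      have h3 : cc * (xx 2)⁻¹ = (xx 2)⁻¹ * cc := by
        have : Commute cc (xx 2) := h2
        exact this.inv_right
      calc cc * ((xx 2)⁻¹ * xx (m + 3) * xx 2) = (cc * (xx 2)⁻¹) * xx (m + 3) * xx 2 := by group
        _ = (xx 2)⁻¹ * (cc * xx (m + 3)) * xx 2 := by rw [h3]; group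
        _ = (xx 2)⁻¹ * xx (m + 3) * (cc * xx 2) := by rw [h1']; group
        _ = (xx 2)⁻¹ * xx (m + 3) * xx 2 * cc := by rw [h2]; group

theorem main_rel : ∀ i j : ℕ, i < j → xx j * xx i = xx i * xx (j + 1) := by
  intro i
  induction i with
  | zero =>
    intro j hj
    obtain ⟨j, rfl⟩ : ∃ k, j = k + 1 := ⟨j - 1, by omega⟩
    have h := conj0 j
    rw [xx_zero, show j + 1 + 1 = j + 2 from rfl, ← h]
    group
  | succ i ih =>
    intro j hj
    obtain ⟨j, rfl⟩ : ∃ k, j = k + 1 := ⟨j - 1, by omega⟩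
    by_cases hi : i = 0
    · subst hi
      obtain ⟨j, rfl⟩ : ∃ k, j = k + 1 := ⟨j - 1, by omega⟩
      have h := (comm_iff g0 g1 (xx (j + 2))).1 (cc_comm j)
      have h' : g1⁻¹ * xx (j + 2) * g1 = xx (j + 3) := by
        rw [h]
        exact conj0 (j + 1)
      rw [zero_add, xx_one, show j + 1 + 1 = j + 2 from rfl, show j + 2 + 1 = j + 3 from rfl, ← h']
      group
    · obtain ⟨i, rfl⟩ : ∃ k, i = k + 1 := ⟨i - 1, by omega⟩
      obtain ⟨j, rfl⟩ : ∃ k, j = k + 1 := ⟨j - 1, by omega⟩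
      have h := ih (j + 1) (by omega)
      rw [show j + 1 + 1 + 1 = (j + 1) + 2 from rfl, ← conj0 (j + 1), ← conj0 j, ← conj0 i]
      have h2 : xx (j + 1) * xx (i + 1) = xx (i + 1) * xx (j + 1 + 1) := h
      have e : xx (j + 1 + 1) = g0⁻¹ * xx (j + 1) * g0 := (conj0 j).symm
      rw [e] at h2
      calc g0⁻¹ * xx (j + 1) * g0 * (g0⁻¹ * xx (i + 1) * g0)
          = g0⁻¹ * (xx (j + 1) * xx (i + 1)) * g0 := by group
        _ = g0⁻¹ * (xx (i + 1) * (g0⁻¹ * xx (j + 1) * g0)) * g0 := by rw [h2]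
        _ = g0⁻¹ * xx (i + 1) * g0 * (g0⁻¹ * (g0⁻¹ * xx (j + 1) * g0) * g0) := by group

end Rel

theorem rel_thm : StmRel := Rel.main_rel

theorem hom_thm : StmHom := by
  intro H _ y hy
  have h01 : ∀ j, (y 0)⁻¹ * y (j + 1) * y 0 = y (j + 2) := by
    intro j
    rw [mul_assoc, hy 0 (j + 1) (by omega)]
    group
  have h11 : ∀ j, (y 1)⁻¹ * y (j + 2) * y 1 = y (j + 3) := by
    intro j
    rw [mul_assoc, hy 1 (j + 2) (by omega)]
    group
  have hc : ∀ j, (y 0 * (y 1)⁻¹) * y (j + 2) = y (j + 2) * (y 0 * (y 1)⁻¹) := by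
    intro j
    rw [Rel.comm_iff, h11]
    exact (h01 (j + 1)).symm
  have h2 : (y 0)⁻¹ * y 1 * y 0 = y 2 := h01 0
  have h3 : (y 0)⁻¹ ^ 2 * y 1 * y 0 ^ 2 = y 3 := by
    have e : (y 0)⁻¹ * y 2 * y 0 = y 3 := h01 1
    rw [← e, ← h2]
    simp only [pow_two, mul_assoc]
  have hcm : ∀ a b : H, a * b = b * a → a * b * a⁻¹ * b⁻¹ = 1 := by
    intro a b h
    rw [h]
    group
  set f : Fin 2 → H := ![y 0, y 1] with hf
  have hrel : ∀ r ∈ ({rel1, rel2} : Set (FreeGroup (Fin 2))), FreeGroup.lift f r = 1 := by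
    intro r hr
    rcases hr with rfl | hr
    · rw [rel1, cmt]
      simp only [map_mul, map_inv, FreeGroup.lift_apply_of]
      show y 0 * (y 1)⁻¹ * ((y 0)⁻¹ * y 1 * y 0) * (y 0 * (y 1)⁻¹)⁻¹ *
        ((y 0)⁻¹ * y 1 * y 0)⁻¹ = 1
      rw [h2]
      exact hcm _ _ (hc 0)
    · rw [Set.mem_singleton_iff] at hr
      subst hr
      rw [rel2, cmt]
      simp only [map_mul, map_inv, map_pow, FreeGroup.lift_apply_of]
      show y 0 * (y 1)⁻¹ * ((y 0)⁻¹ ^ 2 * y 1 * y 0 ^ 2) * (y 0 * (y 1)⁻¹)⁻¹ *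
        ((y 0)⁻¹ ^ 2 * y 1 * y 0 ^ 2)⁻¹ = 1
      rw [h3]
      exact hcm _ _ (hc 1)
  refine ⟨PresentedGroup.toGroup hrel, ?_⟩
  have t0 : PresentedGroup.toGroup hrel g0 = y 0 := PresentedGroup.toGroup.of hrel
  have t1 : PresentedGroup.toGroup hrel g1 = y 1 := PresentedGroup.toGroup.of hrel
  intro n
  induction n with
  | zero => exact t0
  | succ n ih =>
    by_cases hn : n = 0
    · subst hn
      rw [zero_add, Rel.xx_one]
      exact t1
    · obtain ⟨m, rfl⟩ : ∃ k, n = k + 1 := ⟨n - 1, by omega⟩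
      rw [show m + 1 + 1 = m + 2 from rfl, ← Rel.conj0 m, map_mul, map_mul, map_inv, ih, t0, h01]

end Pool.Agent.R652.TF
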