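import Pool.Agent.R652.TF.Defs

/-!
# Transducers with bounded shift are bimachines (TF-SEQ)
-/

namespace Pool.Agent.R652.TF

open Pool.Agent.R652.CA List

namespace SeqAux

/-- a bimachine with infinite state sets but finite invariant sets is a finite bimachine -/
theorem isBim_of_inv {A B Q R : Type} (dl : Q → A → Q) (dr : A → R → R) (out : Q → A → R → B)
    (S : Set Q) (T : Set R) (hS : S.Finite) (hT : T.Finite) (q0 : Q) (r0 : R) (hq0 : q0 ∈ S)
    (hr0 : r0 ∈ T) (hdl : ∀ q ∈ S, ∀ a, dl q a ∈ S) (hdr : ∀ r ∈ T, ∀ a, dr a r ∈ T) :
    IsBim (bimRun dl dr r0 out q0) := by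
  refine ⟨S, T, hS.to_subtype, hT.to_subtype, ⟨q0, hq0⟩, ⟨r0, hr0⟩,
    fun q a => ⟨dl q.1 a, hdl q.1 q.2 a⟩, fun a r => ⟨dr a r.1, hdr r.1 r.2 a⟩,
    fun q a r => out q.1 a r.1, ?_⟩
  have hfold : ∀ w : List A, (w.foldr (fun a (r : T) => (⟨dr a r.1, hdr r.1 r.2 a⟩ : T))
      (⟨r0, hr0⟩ : T)).1 = w.foldr dr r0 := by
    intro w
    induction w with
    | nil => rfl
    | cons a w ih => simp only [List.foldr_cons, ih]
  have key : ∀ (w : List A) (q : Q) (hq : q ∈ S), bimRun dl dr r0 out q w =
      bimRun (fun (q : S) a => (⟨dl q.1 a, hdl q.1 q.2 a⟩ : S))
        (fun a (r : T) => (⟨dr a r.1, hdr r.1 r.2 a⟩ : T)) ⟨r0, hr0⟩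
        (fun q a r => out q.1 a r.1) ⟨q, hq⟩ w := by
    intro w
    induction w with
    | nil => intro q hq; rfl
    | cons a w ih =>
      intro q hq
      simp only [bimRun]
      rw [hfold, ih (dl q a) (hdl q hq a)]
  intro w
  exact key w q0 hq0

variable {A B Q : Type}

/-- the state of the transducer after reading a word -/
def sst (step : Q → A → Q × List B) (q : Q) (u : List A) : Q :=
  u.foldl (fun q a => (step q a).1) q

theorem srun_append (step : Q → A → Q × List B) (q : Q) (u v : List A) :
    srun step q (u ++ v) = srun step q u ++ srun step (sst step q u) v := by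
  induction u generalizing q with
  | nil => rfl
  | cons a u ih =>
    simp only [List.cons_append, srun, ih, List.append_assoc]
    rfl

theorem srun_snoc (step : Q → A → Q × List B) (q : Q) (u : List A) (a : A) :
    srun step q (u ++ [a]) = srun step q u ++ (step (sst step q u) a).2 := by
  rw [srun_append]
  simp [srun]

theorem sst_snoc (step : Q → A → Q × List B) (q : Q) (u : List A) (a : A) :
    sst step q (u ++ [a]) = (step (sst step q u) a).1 := by
  simp [sst, List.foldl_append]

/-- left transition -/
def dl (step : Q → A → Q × List B) (s : Q × List B × ℕ) (a : A) : Q × List B × ℕ :=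
  ((step s.1 a).1, ((s.2.1 ++ (step s.1 a).2.drop s.2.2).drop 1).take 6,
    min 6 (s.2.2 + 1 - (s.2.1.length + (step s.1 a).2.length)))

/-- right transition -/
def dr (a : A) (l : List A) : List A := (a :: l).take 13

/-- output letter -/
def out (step : Q → A → Q × List B) (e : B) (s : Q × List B × ℕ) (a : A) (l : List A) : B :=
  ((s.2.1 ++ (srun step s.1 (a :: l)).drop s.2.2).head?).getD e

theorem foldr_dr (w : List A) : w.foldr dr [] = w.take 13 := by
  induction w with
  | nil => rfl
  | cons a w ih =>
    rw [List.foldr_cons, ih]
    simp [dr, List.take_take]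

/-- exact left state after the word `u` -/
def ex (step : Q → A → Q × List B) (q0 : Q) (u : List A) : Q × List B × ℕ :=
  (sst step q0 u, (srun step q0 u).drop u.length, u.length - (srun step q0 u).length)

theorem dl_ex (step : Q → A → Q × List B) (q0 : Q) (u : List A) (a : A)
    (h : |((srun step q0 (u ++ [a])).length : ℤ) - (u ++ [a]).length| ≤ 6) :
    dl step (ex step q0 u) a = ex step q0 (u ++ [a]) := by
  have hs := srun_snoc step q0 u a
  rw [hs] at h
  rw [abs_le] at h
  simp only [List.length_append, List.length_cons, List.length_nil] at h
  simp only [dl, ex, hs, sst_snoc]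
  refine Prod.ext rfl (Prod.ext ?_ ?_)
  · simp only
    rw [← List.drop_append, List.drop_drop, List.length_append, List.length_cons, List.length_nil]
    apply List.take_of_length_le
    simp only [List.length_drop, List.length_append]
    omega
  · simp only [List.length_append, List.length_cons, List.length_nil, List.length_drop]
    omega

theorem out_ex (step : Q → A → Q × List B) (e : B) (q0 : Q) (u : List A) (a : A) (l : List A) :
    out step e (ex step q0 u) a l = ((srun step q0 (u ++ a :: l))[u.length]?).getD e := by
  simp only [out, ex]
  rw [← List.drop_append, srun_append, List.head?_drop]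

theorem main (step : Q → A → Q × List B) (e : B) (q0 : Q) (w : List A)
    (hw : ∀ u, u <+: w → |((srun step q0 u).length : ℤ) - u.length| ≤ 6) :
    ∀ (v u : List A), w = u ++ v → bimRun (dl step) dr [] (out step e) (ex step q0 u) v =
      ((srun step q0 w ++ replicate 6 e).drop u.length).take v.length := by
  intro v
  induction v with
  | nil => intro u hu; simp [bimRun]
  | cons a v ih =>
    intro u hu
    have hlen : (srun step q0 w).length + 6 ≥ w.length := by
      have := hw w (List.prefix_refl w)
      rw [abs_le] at this
      omega
    have hwl : w.length = u.length + (v.length + 1) := by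
      rw [hu]; simp
    have h1 : |((srun step q0 (u ++ [a])).length : ℤ) - (u ++ [a]).length| ≤ 6 :=
      hw _ ⟨v, by rw [hu]; simp⟩
    rw [bimRun, dl_ex step q0 u a h1, ih (u ++ [a]) (by rw [hu]; simp), foldr_dr, out_ex]
    have hX : u.length < (srun step q0 w ++ replicate 6 e).length := by
      simp only [List.length_append, List.length_replicate]
      omega
    rw [List.drop_eq_getElem_cons hX, List.length_cons, List.take_succ_cons, List.length_append,
      List.length_cons, List.length_nil]
    congr 1
    by_cases hv : v.length ≤ 13
    · rw [List.take_of_length_le hv, ← hu]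
      by_cases hc : u.length < (srun step q0 w).length
      · rw [List.getElem_append_left hc, List.getElem?_eq_getElem hc]
        rfl
      · rw [List.getElem_append_right (by omega), List.getElem?_eq_none (by omega)]
        simp only [Option.getD_none, List.getElem_replicate]
    · have hsplit : w = (u ++ a :: v.take 13) ++ v.drop 13 := by
        rw [hu]; simp
      have h2 := hw (u ++ a :: v.take 13) ⟨v.drop 13, hsplit.symm⟩
      rw [abs_le] at h2
      have h3 : (u ++ a :: v.take 13).length = u.length + 14 := by
        simp only [List.length_append, List.length_cons, List.length_take]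
        omega
      rw [h3] at h2
      have hc : u.length < (srun step q0 (u ++ a :: v.take 13)).length := by
        push_cast at h2
        omega
      have h4 : srun step q0 w = srun step q0 (u ++ a :: v.take 13) ++
          srun step (sst step q0 (u ++ a :: v.take 13)) (v.drop 13) := by
        conv_lhs => rw [hsplit]
        exact srun_append _ _ _ _
      rw [List.getElem?_eq_getElem hc]
      have h5 : (srun step q0 w ++ replicate 6 e)[u.length]? =
          (srun step q0 (u ++ a :: v.take 13))[u.length]? := by
        rw [h4, List.append_assoc, List.getElem?_append_left hc]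
      rw [List.getElem?_eq_getElem hX, List.getElem?_eq_getElem hc] at h5
      simp only [Option.some.injEq] at h5
      rw [h5]
      rfl

end SeqAux

open SeqAux in
/-- Left-to-right transducers with bounded shift are computed by bimachines. -/
theorem seq_thm : StmSeq := by
  intro A B Q _ _ _ step q0 e
  refine ⟨bimRun (dl step) dr [] (out step e) (q0, [], 0), ?_, ?_⟩
  · apply isBim_of_inv (dl step) dr (out step e)
      {s : Q × List B × ℕ | s.2.1.length ≤ 6 ∧ s.2.2 ≤ 6} {l : List A | l.length ≤ 13}
    · have hf : (Set.univ ×ˢ ({l : List B | l.length ≤ 6} ×ˢ Set.Iic 6) :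
          Set (Q × List B × ℕ)).Finite :=
        Set.finite_univ.prod ((List.finite_length_le B 6).prod (Set.finite_Iic 6))
      refine hf.subset ?_
      intro s hs
      exact ⟨trivial, hs.1, hs.2⟩
    · exact List.finite_length_le A 13
    · simp
    · simp
    · intro q _ a
      refine ⟨?_, ?_⟩
      · simp only [dl]
        exact List.length_take_le _ _
      · simp only [dl]
        exact min_le_left _ _
    · intro r _ a
      exact List.length_take_le _ _
  · intro w hw
    have h := main step e q0 w hw w [] rfl
    simp only [List.length_nil, List.drop_zero] at h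
    exact h

end Pool.Agent.R652.TF
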