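import Pool.Agent.R219.TFAux

/-!
# Project TF, piece TF-SPL: splitting the tree number `i` of a tape
-/

namespace Pool.Agent.R652.TF

open Pool.Agent.R652.CA List Pool.Agent.R219.TFAux

/-- the transducer which splits a node -/
def stepSpl : St → Inf × Fin 64 × Bool → St × List (Inf × ℤ)
  | St.c1, (i, _, _) => if i = Inf.sep then (St.c0, [(i, 0)]) else (St.c1, [(i, 0)])
  | St.c0, (i, _, _) => if i = Inf.sep then (St.a, [(i, 0)]) else (St.c0, [(i, 0)])
  | St.a, (i, _, _) => if i = Inf.qo then (St.b, []) else (St.a, [(i, 0)])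
  | St.b, (i, _, z) => if z = true then
      (if i = Inf.qm then (St.c, [(Inf.sep, 0)]) else (St.b, [(i, 0)])) else (St.b, [(i, -1)])
  | St.c, (i, _, z) => if z = true then
      (if i = Inf.qc then (St.d, []) else (St.c, [(i, 0)])) else (St.c, [(i, -1)])
  | St.d, (i, _, _) => (St.d, [(i, 0)])

/-- the shift in each state -/
def shSpl : St → ℤ
  | St.c1 => 0
  | St.c0 => 0
  | St.a => 0
  | St.b => -1
  | St.c => -1
  | St.d => -2

theorem split_thm (hT : StmTrn) (hV : StmValidC) : StmSplit := by
  intro i hi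
  obtain ⟨H, hH, hrel⟩ := finish hT hV stepSpl shSpl
    (by
      rintro q ⟨x, y, z⟩
      cases q <;> simp only [stepSpl] <;> (try split_ifs) <;> simp [shSpl])
    rfl rfl
    (by intro q; cases q <;> simp [shSpl])
    (by
      rintro q ⟨x, y, z⟩ w hw
      cases q <;> simp only [stepSpl] at hw <;> (try split_ifs at hw) <;> simp at hw <;>
        simp [hw])
    (by
      rintro q x y w hw
      cases q <;> simp only [stepSpl, if_true] at hw <;> (try split_ifs at hw) <;> simp at hw <;>
        simp [hw]) i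
  refine ⟨H, hH, ?_⟩
  intro L1 l r L2 j hL
  obtain ⟨hp1, hp2⟩ := prefix_run stepSpl []
    (by intro d z; simp [stepSpl]) (by intro i d z h; simp [stepSpl, h])
    (by intro d z; simp [stepSpl]) L1 i hi hL
  have hnz : ∀ (t : CT) (x : Inf × ℕ), x ∈ tourC t (0 + 1) → decide (x.2 = 0) = false := by
    intro t x hx
    have := (mem_tour t 1 x hx).2.2
    simp only [decide_eq_false_iff_not]
    omega
  obtain ⟨hl1, hl2⟩ := loop stepSpl St.b (-1) (tourC l (0 + 1)) (by
    intro x hx
    rw [hnz l x hx]
    simp [stepSpl])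
  obtain ⟨hr1, hr2⟩ := loop stepSpl St.c (-1) (tourC r (0 + 1)) (by
    intro x hx
    rw [hnz r x hx]
    simp [stepSpl])
  rw [map_down] at hl1 hr1
  obtain ⟨he1, he2⟩ := loop0 stepSpl St.d
    ((Inf.sep, 0) :: (toursC L2 ++ replicate (j + 1) (Inf.en, 0))) (by intro x _; simp [stepSpl])
  have hA : trun stepSpl St.a (tourC (CT.nd l r) 0) =
      tourC l 0 ++ (Inf.sep, 0) :: tourC r 0 := by
    simp only [tourC]
    rw [trun_cons]
    simp only [stepSpl, if_true]
    rw [trun_append, hl1, hl2, trun_cons]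
    simp only [stepSpl, if_true, decide_true]
    rw [trun_append, hr1, hr2, trun_cons]
    simp [stepSpl, o1, trun]
  have hA2 : fin stepSpl St.a (tourC (CT.nd l r) 0) = St.d := by
    simp only [tourC]
    show fin stepSpl (stepSpl St.a (Inf.qo, md 0, decide (0 = 0))).1 _ = _
    simp only [stepSpl, if_true]
    rw [fin_append, hl2]
    show fin stepSpl (stepSpl St.b (Inf.qm, md 0, decide (0 = 0))).1 _ = _
    simp only [stepSpl, if_true, decide_true]
    rw [fin_append, hr2]
    simp [stepSpl, fin]
  apply hrel _ _ _ _ 2 0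
  · rw [tape_eq, fin_append, hp2, fin_append, hA2, he2]
  · simp [shSpl]
  · rw [tape_eq, trun_append, hp1, hp2, trun_append, hA, hA2, he1, tape_eq2]
    have hrep : replicate (j + 2 + 1) ((Inf.en, 0) : Inf × ℕ) =
        replicate (j + 1) (Inf.en, 0) ++ replicate 2 (Inf.en, 0) := by
      rw [← List.replicate_add]
    rw [hrep]
    simp [o1]

end Pool.Agent.R652.TF
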