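import Pool.Agent.R652.TF.Defs

/-!
# Project TF, piece TF-TEST

Finite automata tests on the tapes of lists of trees.
-/

namespace Pool.Agent.R652.TF

open Pool.Agent.R652.CA List

/-- the informations of the tour of a tree -/
def iw : CT → List Inf
  | CT.lf a b => replicate a Inf.po ++ Inf.lf :: replicate b Inf.pc
  | CT.nd l r => Inf.qo :: (iw l ++ Inf.qm :: (iw r ++ [Inf.qc]))

theorem iw_tour (t : CT) : ∀ d, (tourC t d).map Prod.fst = iw t := by
  induction t with
  | lf a b =>
    intro d
    simp [tourC, iw]
  | nd l r ihl ihr =>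
    intro d
    simp only [tourC, iw, List.map_cons, List.map_append, List.map_nil, ihl, ihr]

theorem iw_ne (t : CT) : ∀ a ∈ iw t, a ≠ Inf.sep ∧ a ≠ Inf.en := by
  induction t with
  | lf a b =>
    intro x hx
    simp only [iw, List.mem_append, List.mem_replicate, List.mem_cons] at hx
    rcases hx with ⟨-, rfl⟩ | rfl | ⟨-, rfl⟩ <;> decide
  | nd l r ihl ihr =>
    intro x hx
    simp only [iw, List.mem_append, List.mem_cons, List.not_mem_nil, or_false] at hx
    rcases hx with rfl | hx | rfl | hx | rfl
    · decide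
    · exact ihl x hx
    · decide
    · exact ihr x hx
    · decide

/-- the informations of the tape without the end cells -/
def iws (L : List CT) : List Inf := L.flatMap fun t => iw t ++ [Inf.sep]

theorem iws_map (L : List CT) : (toursC L).map Prod.fst = iws L := by
  unfold toursC iws
  rw [List.map_flatMap]
  congr 1
  funext t
  rw [List.map_append, iw_tour]
  rfl

/-- the fold of a step which depends on the information only -/
theorem fold_sh {Q : Type} (st : Q → Inf → Q) (q0 : Q) (L : List CT) (j : ℕ) :
    (sh (tapeC L j)).foldl (fun q a => st q a.1) q0 =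
      (Inf.sep :: (iws L ++ replicate (j + 1) Inf.en)).foldl st q0 := by
  have h1 : (Inf.sep :: (iws L ++ replicate (j + 1) Inf.en)) = (sh (tapeC L j)).map Prod.fst := by
    unfold sh tapeC
    rw [List.map_map]
    simp only [List.map_cons, List.map_append, List.map_replicate, Function.comp_def]
    rw [← iws_map]
  rw [h1, List.foldl_map]

theorem foldl_const {Q A : Type} (st : Q → A → Q) (q : Q) (w : List A)
    (h : ∀ a ∈ w, st q a = q) : w.foldl st q = q := by
  induction w with
  | nil => rfl
  | cons a w ih =>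
    rw [List.foldl_cons, h a (List.mem_cons_self), ih fun b hb => h b (List.mem_cons_of_mem _ hb)]

/-! ### Test for a node -/

/-- states: number of separators to skip, or the result -/
def stN : Fin 3 ⊕ Bool → Inf → Fin 3 ⊕ Bool
  | Sum.inr b, _ => Sum.inr b
  | Sum.inl 0, a => Sum.inr (decide (a = Inf.qo))
  | Sum.inl 1, a => if a = Inf.sep then Sum.inl 0 else Sum.inl 1
  | Sum.inl 2, a => if a = Inf.sep then Sum.inl 1 else Sum.inl 2

theorem stN_inr (b : Bool) (w : List Inf) : w.foldl stN (Sum.inr b) = Sum.inr b :=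
  foldl_const _ _ _ fun _ _ => rfl

theorem stN_head (t : CT) (w : List Inf) :
    ∃ b : Bool, (iw t ++ w).foldl stN (Sum.inl 0) = Sum.inr b ∧
      (b = true ↔ ∃ l r, t = CT.nd l r) := by
  cases t with
  | lf a b =>
    refine ⟨false, ?_, by simp⟩
    cases a with
    | zero =>
      simp only [iw, List.replicate_zero, List.nil_append, List.cons_append, List.foldl_cons]
      exact stN_inr _ _
    | succ a =>
      simp only [iw, List.replicate_succ, List.cons_append, List.foldl_cons]
      exact stN_inr _ _
  | nd l r =>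
    refine ⟨true, ?_, by simp⟩
    simp only [iw, List.cons_append, List.foldl_cons]
    exact stN_inr _ _

theorem test_node : StmTestNode := by
  intro i hi
  refine ⟨Fin 3 ⊕ Bool, inferInstance, fun q a => stN q a.1,
    Sum.inl (if i = 0 then 1 else 2), fun q => decide (q = Sum.inr true), ?_⟩
  intro L1 t L2 j hL1
  rw [fold_sh stN]
  obtain rfl | rfl : i = 0 ∨ i = 1 := by omega
  · obtain rfl : L1 = [] := List.length_eq_zero_iff.1 hL1
    rw [if_pos rfl, List.nil_append]
    have h1 : iws (t :: L2) ++ replicate (j + 1) Inf.en =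
        iw t ++ (Inf.sep :: (iws L2 ++ replicate (j + 1) Inf.en)) := by
      simp [iws]
    rw [h1, List.foldl_cons]
    obtain ⟨b, hb, hb'⟩ := stN_head t (Inf.sep :: (iws L2 ++ replicate (j + 1) Inf.en))
    have h2 : stN (Sum.inl 1) Inf.sep = Sum.inl 0 := rfl
    rw [h2, hb, ← hb']
    simp
  · obtain ⟨t1, rfl⟩ := List.length_eq_one_iff.1 hL1
    rw [if_neg one_ne_zero]
    have h1 : iws ([t1] ++ t :: L2) ++ replicate (j + 1) Inf.en =
        iw t1 ++ (Inf.sep :: (iw t ++ (Inf.sep :: (iws L2 ++ replicate (j + 1) Inf.en)))) := by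
      simp [iws]
    rw [h1, List.foldl_cons]
    have h2 : stN (Sum.inl 2) Inf.sep = Sum.inl 1 := rfl
    have h3 : (iw t1).foldl stN (Sum.inl 1) = Sum.inl 1 := by
      refine foldl_const _ _ _ fun a ha => ?_
      have h4 := (iw_ne t1 a ha).1
      change (if a = Inf.sep then Sum.inl 0 else Sum.inl 1) = _
      rw [if_neg h4]
    rw [h2, List.foldl_append, h3, List.foldl_cons]
    have h5 : stN (Sum.inl 1) Inf.sep = Sum.inl 0 := rfl
    obtain ⟨b, hb, hb'⟩ := stN_head t (Inf.sep :: (iws L2 ++ replicate (j + 1) Inf.en))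
    rw [h5, hb, ← hb']
    simp

/-! ### Test for a reducible pair -/

/-- states: `inl` number of separators to skip; `inr`: stages of `po⁺ lf sep lf pc` -/
inductive QR
  | sk1
  | sk2
  | s0
  | s1
  | s2
  | s3
  | s4
  | ok
  | no
  deriving DecidableEq

instance : Fintype QR :=
  ⟨{QR.sk1, QR.sk2, QR.s0, QR.s1, QR.s2, QR.s3, QR.s4, QR.ok, QR.no}, by
    intro x; cases x <;> decide⟩

/-- the automaton for reducible pairs -/
def stR : QR → Inf → QR
  | QR.sk2, a => if a = Inf.sep then QR.sk1 else QR.sk2
  | QR.sk1, a => if a = Inf.sep then QR.s0 else QR.sk1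
  | QR.s0, Inf.po => QR.s1
  | QR.s0, _ => QR.no
  | QR.s1, Inf.po => QR.s1
  | QR.s1, Inf.lf => QR.s2
  | QR.s1, _ => QR.no
  | QR.s2, Inf.sep => QR.s3
  | QR.s2, _ => QR.no
  | QR.s3, Inf.lf => QR.s4
  | QR.s3, _ => QR.no
  | QR.s4, Inf.pc => QR.ok
  | QR.s4, _ => QR.no
  | QR.ok, _ => QR.ok
  | QR.no, _ => QR.no

theorem stR_ok (w : List Inf) : w.foldl stR QR.ok = QR.ok := foldl_const _ _ _ fun _ _ => rfl
theorem stR_no (w : List Inf) : w.foldl stR QR.no = QR.no := foldl_const _ _ _ fun _ _ => rfl

theorem stR_first (l : CT) (w : List Inf) :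
    (iw l ++ Inf.sep :: w).foldl stR QR.s0 = w.foldl stR QR.s3 ∧ (∃ a, l = CT.lf (a + 1) 0) ∨
      (iw l ++ Inf.sep :: w).foldl stR QR.s0 = QR.no ∧ ¬ ∃ a, l = CT.lf (a + 1) 0 := by
  cases l with
  | nd l r =>
    right
    refine ⟨?_, by simp⟩
    simp only [iw, List.cons_append, List.foldl_cons]
    exact stR_no _
  | lf a b =>
    cases a with
    | zero =>
      right
      refine ⟨?_, by simp⟩
      simp only [iw, List.replicate_zero, List.nil_append, List.cons_append, List.foldl_cons]
      exact stR_no _
    | succ a =>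
      have h1 : (iw (CT.lf (a + 1) b) ++ Inf.sep :: w).foldl stR QR.s0 =
          (replicate b Inf.pc ++ Inf.sep :: w).foldl stR QR.s2 := by
        simp only [iw, List.replicate_succ, List.cons_append, List.foldl_cons, List.append_assoc]
        rw [List.foldl_append]
        have h2 : (replicate a Inf.po).foldl stR (stR QR.s0 Inf.po) = QR.s1 := by
          refine foldl_const _ _ _ fun x hx => ?_
          rw [List.eq_of_mem_replicate hx]
          rfl
        rw [h2, List.foldl_cons]
        rfl
      cases b with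
      | zero =>
        left
        refine ⟨?_, ⟨a, rfl⟩⟩
        rw [h1]
        rfl
      | succ b =>
        right
        refine ⟨?_, by simp⟩
        rw [h1]
        simp only [List.replicate_succ, List.cons_append, List.foldl_cons]
        exact stR_no _

theorem stR_second (r : CT) (w : List Inf) :
    (iw r ++ Inf.sep :: w).foldl stR QR.s3 = QR.ok ∧ (∃ b, r = CT.lf 0 (b + 1)) ∨
      (iw r ++ Inf.sep :: w).foldl stR QR.s3 = QR.no ∧ ¬ ∃ b, r = CT.lf 0 (b + 1) := by
  cases r with
  | nd l r =>
    right
    refine ⟨?_, by simp⟩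
    simp only [iw, List.cons_append, List.foldl_cons]
    exact stR_no _
  | lf a b =>
    cases a with
    | succ a =>
      right
      refine ⟨?_, by simp⟩
      simp only [iw, List.replicate_succ, List.cons_append, List.foldl_cons]
      exact stR_no _
    | zero =>
      cases b with
      | zero =>
        right
        refine ⟨?_, by simp⟩
        simp only [iw, List.replicate_zero, List.nil_append, List.cons_append, List.foldl_cons]
        exact stR_no _
      | succ b =>
        left
        refine ⟨?_, ⟨b, rfl⟩⟩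
        simp only [iw, List.replicate_zero, List.replicate_succ, List.nil_append,
          List.cons_append, List.foldl_cons]
        exact stR_ok _

theorem stR_pair (l r : CT) (w : List Inf) :
    (iw l ++ Inf.sep :: (iw r ++ Inf.sep :: w)).foldl stR QR.s0 = QR.ok ↔
      ∃ a b, l = CT.lf (a + 1) 0 ∧ r = CT.lf 0 (b + 1) := by
  rcases stR_first l (iw r ++ Inf.sep :: w) with ⟨h1, a, ha⟩ | ⟨h1, ha⟩
  · rw [h1]
    rcases stR_second r w with ⟨h2, b, hb⟩ | ⟨h2, hb⟩
    · rw [h2]
      exact ⟨fun _ => ⟨a, b, ha, hb⟩, fun _ => rfl⟩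
    · rw [h2]
      refine ⟨fun h => absurd h (by decide), ?_⟩
      rintro ⟨a', b', -, h3⟩
      exact absurd ⟨b', h3⟩ hb
  · rw [h1]
    refine ⟨fun h => absurd h (by decide), ?_⟩
    rintro ⟨a', b', h3, -⟩
    exact absurd ⟨a', h3⟩ ha

theorem test_red : StmTestRed := by
  intro i hi
  refine ⟨QR, inferInstance, fun q a => stR q a.1,
    if i = 0 then QR.sk1 else QR.sk2, fun q => decide (q = QR.ok), ?_⟩
  intro L1 l r L2 j hL1
  rw [fold_sh stR, decide_eq_true_eq]
  obtain rfl | rfl : i = 0 ∨ i = 1 := by omega
  · obtain rfl : L1 = [] := List.length_eq_zero_iff.1 hL1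
    rw [if_pos rfl, List.nil_append]
    have h1 : iws (l :: r :: L2) ++ replicate (j + 1) Inf.en =
        iw l ++ (Inf.sep :: (iw r ++ (Inf.sep :: (iws L2 ++ replicate (j + 1) Inf.en)))) := by
      simp [iws]
    rw [h1, List.foldl_cons]
    have h2 : stR QR.sk1 Inf.sep = QR.s0 := rfl
    rw [h2]
    exact stR_pair l r _
  · obtain ⟨t1, rfl⟩ := List.length_eq_one_iff.1 hL1
    rw [if_neg one_ne_zero]
    have h1 : iws ([t1] ++ l :: r :: L2) ++ replicate (j + 1) Inf.en =
        iw t1 ++ (Inf.sep :: (iw l ++ (Inf.sep :: (iw r ++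
          (Inf.sep :: (iws L2 ++ replicate (j + 1) Inf.en)))))) := by
      simp [iws]
    rw [h1, List.foldl_cons]
    have h2 : stR QR.sk2 Inf.sep = QR.sk1 := rfl
    have h3 : (iw t1).foldl stR QR.sk1 = QR.sk1 := by
      refine foldl_const _ _ _ fun a ha => ?_
      have h4 := (iw_ne t1 a ha).1
      change (if a = Inf.sep then QR.s0 else QR.sk1) = _
      rw [if_neg h4]
    rw [h2, List.foldl_append, h3, List.foldl_cons]
    have h5 : stR QR.sk1 Inf.sep = QR.s0 := rfl
    rw [h5]
    exact stR_pair l r _

/-! ### Test for a trivial last tree -/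

/-- the second component of the state: the suffix which has been read -/
def stM : Fin 4 → Inf → Fin 4
  | 2, Inf.sep => 3
  | _, Inf.sep => 1
  | 1, Inf.lf => 2
  | 3, Inf.lf => 2
  | _, Inf.lf => 0
  | m, Inf.en => m
  | _, _ => 0

/-- the first component: number of separators up to five -/
def stC : Fin 6 → Inf → Fin 6
  | c, Inf.sep => ⟨min (c + 1) 5, by omega⟩
  | c, _ => c

theorem foldl_pair {Q R A : Type} (f : Q → A → Q) (g : R → A → R) (w : List A) :
    ∀ (q : Q) (r : R), w.foldl (fun (p : Q × R) a => (f p.1 a, g p.2 a)) (q, r) =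
      (w.foldl f q, w.foldl g r) := by
  induction w with
  | nil => intro q r; rfl
  | cons a w ih =>
    intro q r
    rw [List.foldl_cons, List.foldl_cons, List.foldl_cons]
    exact ih _ _

theorem stC_tour (c : Fin 6) (t : CT) : (iw t).foldl stC c = c := by
  refine foldl_const _ _ _ fun a ha => ?_
  have h := (iw_ne t a ha).1
  cases a <;> first | rfl | exact absurd rfl h

theorem stC_iws (L : List CT) : ∀ c : Fin 6,
    (((iws L).foldl stC c : Fin 6) : ℕ) = min ((c : ℕ) + L.length) 5 := by
  induction L with
  | nil =>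
    intro c
    have := c.2
    change (c : ℕ) = min ((c : ℕ) + 0) 5
    omega
  | cons t L ih =>
    intro c
    have h1 : iws (t :: L) = iw t ++ (Inf.sep :: iws L) := by simp [iws]
    rw [h1, List.foldl_append, stC_tour, List.foldl_cons, ih, List.length_cons]
    change min (min ((c : ℕ) + 1) 5 + L.length) 5 = _
    omega

theorem stM_zero (w : List Inf) (hw : ∀ a ∈ w, a ≠ Inf.sep ∧ a ≠ Inf.en) :
    w.foldl stM 0 = 0 := by
  refine foldl_const _ _ _ fun a ha => ?_
  have h := hw a ha
  cases a <;> first | rfl | exact absurd rfl h.1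

theorem stM_pc (b : ℕ) (m : Fin 4) : (replicate (b + 1) Inf.pc).foldl stM m = 0 := by
  rw [List.replicate_succ, List.foldl_cons]
  have h1 : stM m Inf.pc = 0 := by
    fin_cases m <;> rfl
  rw [h1]
  refine stM_zero _ fun a ha => ?_
  rw [List.eq_of_mem_replicate ha]
  decide

open scoped Classical in
theorem stM_tour (t : CT) (m : Fin 4) (hm : m = 1 ∨ m = 3) :
    (iw t ++ [Inf.sep]).foldl stM m = if t = l0 then 3 else 1 := by
  rw [List.foldl_append]
  cases t with
  | nd l r =>
    rw [if_neg (by simp)]
    have h1 : (iw (CT.nd l r)).foldl stM m = 0 := by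
      have h2 : stM m Inf.qo = 0 := by
        rcases hm with rfl | rfl <;> rfl
      simp only [iw]
      rw [List.foldl_cons, h2]
      refine stM_zero _ fun a ha => ?_
      refine iw_ne (CT.nd l r) a ?_
      simp only [iw]
      exact List.mem_cons_of_mem _ ha
    rw [h1]
    rfl
  | lf a b =>
    cases a with
    | succ a =>
      rw [if_neg (by simp)]
      have h1 : (iw (CT.lf (a + 1) b)).foldl stM m = 0 := by
        have h2 : stM m Inf.po = 0 := by
          rcases hm with rfl | rfl <;> rfl
        simp only [iw, List.replicate_succ, List.cons_append]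
        rw [List.foldl_cons, h2]
        refine stM_zero _ fun x hx => ?_
        refine iw_ne (CT.lf (a + 1) b) x ?_
        simp only [iw, List.replicate_succ, List.cons_append]
        exact List.mem_cons_of_mem _ hx
      rw [h1]
      rfl
    | zero =>
      have h2 : stM m Inf.lf = 2 := by
        rcases hm with rfl | rfl <;> rfl
      have h3 : (iw (CT.lf 0 b)).foldl stM m = (replicate b Inf.pc).foldl stM 2 := by
        simp only [iw, List.replicate_zero, List.nil_append, List.foldl_cons, h2]
      rw [h3]
      cases b with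
      | zero =>
        rw [if_pos rfl]
        rfl
      | succ b =>
        rw [if_neg (by simp), stM_pc]
        rfl

open scoped Classical in
theorem stM_iws (L : List CT) : ∀ m : Fin 4, m = 1 ∨ m = 3 →
    (iws L).foldl stM m = if L = [] then m else if L.getLast? = some l0 then 3 else 1 := by
  induction L with
  | nil =>
    intro m hm
    rw [if_pos rfl]
    rfl
  | cons t L ih =>
    intro m hm
    have h1 : iws (t :: L) = (iw t ++ [Inf.sep]) ++ iws L := by simp [iws]
    rw [h1, List.foldl_append, stM_tour t m hm, if_neg (List.cons_ne_nil t L)]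
    rw [ih _ (by by_cases h : t = l0 <;> simp [h])]
    cases L with
    | nil => simp
    | cons t' L =>
      rw [if_neg (List.cons_ne_nil t' L), List.getLast?_cons_cons]

theorem test_drop : StmTestDrop := by
  classical
  refine ⟨Fin 6 × Fin 4, inferInstance, fun q a => (stC q.1 a.1, stM q.2 a.1), (0, 0),
    fun q => decide (q.1 = 5) && decide (q.2 = 3), ?_⟩
  intro L j
  rw [fold_sh (fun (q : Fin 6 × Fin 4) a => (stC q.1 a, stM q.2 a)), foldl_pair]
  have hC : (((Inf.sep :: (iws L ++ replicate (j + 1) Inf.en)).foldl stC 0 : Fin 6) : ℕ) =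
      min (1 + L.length) 5 := by
    rw [List.foldl_cons, List.foldl_append]
    have h1 : ∀ c : Fin 6, (replicate (j + 1) Inf.en).foldl stC c = c := fun c =>
      foldl_const _ _ _ fun a ha => by
        rw [List.eq_of_mem_replicate ha]
        rfl
    rw [h1, stC_iws]
    rfl
  have hM : (Inf.sep :: (iws L ++ replicate (j + 1) Inf.en)).foldl stM 0 =
      if L = [] then 1 else if L.getLast? = some l0 then 3 else 1 := by
    rw [List.foldl_cons, List.foldl_append]
    have h1 : ∀ c : Fin 4, (replicate (j + 1) Inf.en).foldl stM c = c := fun c =>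
      foldl_const _ _ _ fun a ha => by
        rw [List.eq_of_mem_replicate ha]
        fin_cases c <;> rfl
    rw [h1]
    exact stM_iws L 1 (Or.inl rfl)
  rw [Bool.and_eq_true, decide_eq_true_eq, decide_eq_true_eq]
  constructor
  · rintro ⟨h1, h2⟩
    have h3 : min (1 + L.length) 5 = 5 := by
      rw [← hC]
      exact congrArg Fin.val h1
    refine ⟨by omega, ?_⟩
    have h4 : (Inf.sep :: (iws L ++ replicate (j + 1) Inf.en)).foldl stM 0 = 3 := h2
    rw [hM, if_neg (by rintro rfl; simp at h3)] at h4
    by_contra hcon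
    rw [if_neg hcon] at h4
    exact absurd h4 (by decide)
  · rintro ⟨h1, h2⟩
    refine ⟨?_, ?_⟩
    · apply Fin.ext
      have h3 : (((Inf.sep :: (iws L ++ replicate (j + 1) Inf.en)).foldl stC 0 : Fin 6) : ℕ) = 5 := by
        rw [hC]
        omega
      exact h3
    · change (Inf.sep :: (iws L ++ replicate (j + 1) Inf.en)).foldl stM 0 = 3
      rw [hM, if_neg (by rintro rfl; simp at h1), if_pos h2]

end Pool.Agent.R652.TF
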