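import Pool.Agent.R652.TF.Defs

/-!
# Project TF, piece TF-TRN

Transducers with bounded shift acting on tapes with heights give relations `RelR H`.
-/

namespace Pool.Agent.R652.TF

open Pool.Agent.R652.CA List

/-- shift of the height mod 64 -/
def trnSm (d : Fin 64) (o : ℤ) : Fin 64 := md (((d : ℕ) : ℤ) + 64 + o).toNat

theorem trnSm_md (D : ℕ) (o : ℤ) (h1 : |o| ≤ 1) (h0 : 0 ≤ (D : ℤ) + o) :
    trnSm (md D) o = md ((D : ℤ) + o).toNat := by
  rw [abs_le] at h1
  unfold trnSm md
  apply Fin.ext
  change (((D % 64 : ℕ) : ℤ) + 64 + o).toNat % 64 = ((D : ℤ) + o).toNat % 64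
  omega

/-- the transducer on the shadows -/
def trnStep {I Q : Type} (step : Q → I × Fin 64 × Bool → Q × List (I × ℤ)) (q : Q)
    (a : I × Fin 64 × Bool) : Q × List (I × Fin 64) :=
  ((step q a).1, (step q a).2.map fun y => (y.1, trnSm a.2.1 y.2))

section

variable {I Q : Type} {step : Q → I × Fin 64 × Bool → Q × List (I × ℤ)}

theorem trn_off (h1 : ∀ q a, ∀ y ∈ (step q a).2, |y.2| ≤ 1)
    (h2 : ∀ q i d, ∀ y ∈ (step q (i, d, true)).2, 0 ≤ y.2) (q : Q) (x : I × ℕ) :
    ∀ y ∈ (step q (x.1, md x.2, decide (x.2 = 0))).2, |y.2| ≤ 1 ∧ 0 ≤ (x.2 : ℤ) + y.2 := by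
  intro y hy
  have h3 := h1 _ _ y hy
  refine ⟨h3, ?_⟩
  by_cases h0 : x.2 = 0
  · rw [decide_eq_true h0] at hy
    have h4 := h2 _ _ _ y hy
    omega
  · rw [abs_le] at h3
    omega

theorem trn_sh (h1 : ∀ q a, ∀ y ∈ (step q a).2, |y.2| ≤ 1)
    (h2 : ∀ q i d, ∀ y ∈ (step q (i, d, true)).2, 0 ≤ y.2) (ℓ : List (I × ℕ)) :
    ∀ q, sh' (trun step q ℓ) = srun (trnStep step) q (sh ℓ) := by
  induction ℓ with
  | nil => intro q; rfl
  | cons x w ih =>
    intro q
    have h3 : sh (x :: w) = (x.1, md x.2, decide (x.2 = 0)) :: sh w := rfl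
    rw [h3]
    simp only [trun, srun]
    rw [← ih]
    unfold sh'
    rw [List.map_append, List.map_map]
    congr 1
    unfold trnStep
    refine List.map_congr_left fun y hy => ?_
    have h4 := trn_off h1 h2 q x y hy
    simp only [Function.comp]
    rw [trnSm_md _ _ h4.1 h4.2]

theorem trn_len (h1 : ∀ q a, ∀ y ∈ (step q a).2, |y.2| ≤ 1)
    (h2 : ∀ q i d, ∀ y ∈ (step q (i, d, true)).2, 0 ≤ y.2) (ℓ : List (I × ℕ)) (q : Q) :
    (srun (trnStep step) q (sh ℓ)).length = (trun step q ℓ).length := by
  rw [← trn_sh h1 h2]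
  unfold sh'
  rw [List.length_map]

/-- every output cell comes from an input cell -/
theorem trn_src (h1 : ∀ q a, ∀ y ∈ (step q a).2, |y.2| ≤ 1)
    (h2 : ∀ q i d, ∀ y ∈ (step q (i, d, true)).2, 0 ≤ y.2) (ℓ : List (I × ℕ)) :
    ∀ (q : Q) (i : ℕ) (hi : i < (trun step q ℓ).length), ∃ (m : ℕ) (hm : m < ℓ.length),
      (trun step q (ℓ.take m)).length ≤ i ∧ i < (trun step q (ℓ.take (m + 1))).length ∧
        |(((trun step q ℓ)[i].2 : ℕ) : ℤ) - ℓ[m].2| ≤ 1 := by
  induction ℓ with
  | nil =>
    intro q i hi
    simp [trun] at hi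
  | cons x w ih =>
    intro q i hi
    simp only [trun] at hi
    by_cases hlt : i < (step q (x.1, md x.2, decide (x.2 = 0))).2.length
    · refine ⟨0, by simp, by simp [trun], by simpa [trun] using hlt, ?_⟩
      simp only [trun]
      rw [List.getElem_append_left (by simpa using hlt), List.getElem_map]
      have h4 := trn_off h1 h2 q x _ (List.getElem_mem hlt)
      rw [List.getElem_cons_zero]
      simp only
      rw [Int.toNat_of_nonneg h4.2]
      have h5 := h4.1
      rw [abs_le] at h5 ⊢
      constructor <;> linarith [h5.1, h5.2]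
    · push Not at hlt
      rw [List.length_append, List.length_map] at hi
      obtain ⟨m, hm, ha, hb, hc⟩ := ih (step q (x.1, md x.2, decide (x.2 = 0))).1
        (i - (step q (x.1, md x.2, decide (x.2 = 0))).2.length) (by omega)
      refine ⟨m + 1, by simpa using hm, ?_, ?_, ?_⟩
      · rw [List.take_succ_cons]
        simp only [trun]
        rw [List.length_append, List.length_map]
        omega
      · rw [List.take_succ_cons]
        simp only [trun]
        rw [List.length_append, List.length_map]
        omega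
      · simp only [trun]
        rw [List.getElem_append_right (by simpa using hlt)]
        simp only [List.length_map, List.getElem_cons_succ]
        exact hc

end

/-- heights of a valid tape -/
theorem trn_chain {I : Type} {ℓ : List (I × ℕ)}
    (h : ℓ.IsChain (fun a b => |(a.2 : ℤ) - b.2| ≤ 1)) (i : ℕ) :
    ∀ (j : ℕ) (hj : i + j < ℓ.length),
      |((ℓ[i]'(by omega)).2 : ℤ) - (ℓ[i + j]).2| ≤ j := by
  intro j
  induction j with
  | zero =>
    intro hj
    simp
  | succ j ih =>
    intro hj
    have h1 := ih (by omega)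
    have h2 := (List.isChain_iff_getElem.1 h) (i + j) (by omega)
    have h3 : ((ℓ[i]'(by omega)).2 : ℤ) - (ℓ[i + (j + 1)]).2 =
        (((ℓ[i]'(by omega)).2 : ℤ) - (ℓ[i + j]).2) + ((ℓ[i + j].2 : ℤ) - (ℓ[i + j + 1]).2) := by
      ring_nf
    rw [h3]
    refine (abs_add_le _ _).trans ?_
    push_cast
    linarith

theorem trn_dist {I : Type} {ℓ : List (I × ℕ)}
    (h : ℓ.IsChain (fun a b => |(a.2 : ℤ) - b.2| ≤ 1)) (i j : ℕ) (hi : i < ℓ.length)
    (hj : j < ℓ.length) : |((ℓ[i]).2 : ℤ) - (ℓ[j]).2| ≤ |(i : ℤ) - j| := by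
  rcases le_total i j with hij | hij
  · obtain ⟨d, rfl⟩ := Nat.exists_eq_add_of_le hij
    have h1 := trn_chain h i d hj
    refine h1.trans ?_
    rw [abs_sub_comm]
    push_cast
    rw [add_sub_cancel_left]
    exact le_abs_self _
  · obtain ⟨d, rfl⟩ := Nat.exists_eq_add_of_le hij
    have h1 := trn_chain h j d hi
    rw [abs_sub_comm]
    refine h1.trans ?_
    push_cast
    rw [add_sub_cancel_left]
    exact le_abs_self _

/-- **Piece TF-TRN.** -/
theorem trn_thm (hseq : StmSeq) : StmTrn := by
  intro I Q hI hQ step q0 e h1 h2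
  obtain ⟨H, hH, hHw⟩ := hseq (I × Fin 64 × Bool) (I × Fin 64) Q inferInstance inferInstance hQ
    (trnStep step) q0 (e, md 0)
  refine ⟨H, hH, ?_⟩
  intro ℓ ℓ' k₁ k₂ hv hv' hlen hpre heq
  have hfull := hpre ℓ (List.prefix_refl ℓ)
  rw [abs_le] at hfull
  -- the tape ℓ' is the beginning of the output
  have hℓ' : ℓ' = (trun step q0 ℓ ++ replicate 6 (e, 0)).take ℓ.length := by
    have h3 : ℓ' = (trun step q0 ℓ ++ replicate k₁ (e, 0)).take ℓ.length := by
      rw [heq, hlen, List.take_left']
      rfl
    have h4 : ℓ.length ≤ (trun step q0 ℓ).length + k₁ := by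
      have h5 := congrArg List.length heq
      simp only [List.length_append, List.length_replicate] at h5
      omega
    rw [h3, List.take_append, List.take_append, List.take_replicate, List.take_replicate]
    congr 2
    omega
  refine ⟨hv, hv', ?_, ?_⟩
  · -- closeness
    rw [List.forall₂_iff_get]
    refine ⟨hlen, fun i hi hi' => ?_⟩
    rw [List.get_eq_getElem, List.get_eq_getElem]
    have h5 : ℓ'[i] = (trun step q0 ℓ ++ replicate 6 (e, 0))[i]'(by
        simp only [List.length_append, List.length_replicate]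
        omega) := by
      have h6 : ∀ (l : List (I × ℕ)) (h7 : l = (trun step q0 ℓ ++ replicate 6 (e, 0)).take
          ℓ.length) (h8 : i < l.length), l[i] = (trun step q0 ℓ ++ replicate 6 (e, 0))[i]'(by
            simp only [List.length_append, List.length_replicate]
            omega) := by
        intro l h7 h8
        subst h7
        rw [List.getElem_take]
      exact h6 ℓ' hℓ' hi'
    rw [h5]
    by_cases hlt : i < (trun step q0 ℓ).length
    · rw [List.getElem_append_left hlt]
      obtain ⟨m, hm, ha, hb, hc⟩ := trn_src h1 h2 ℓ q0 i hlt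
      have hp1 := hpre (ℓ.take m) (List.take_prefix _ _)
      have hp2 := hpre (ℓ.take (m + 1)) (List.take_prefix _ _)
      rw [List.length_take, abs_le] at hp1 hp2
      have hd := trn_dist hv.1 i m hi hm
      have h9 : |(i : ℤ) - m| ≤ 6 := by
        rw [abs_le]
        omega
      rw [abs_le] at hd hc ⊢
      constructor <;> linarith [hd.1, hd.2, hc.1, hc.2]
    · push Not at hlt
      rw [List.getElem_append_right hlt, List.getElem_replicate]
      obtain ⟨hch, a, z, hz⟩ := hv
      have hlast : ∀ h : ℓ.length - 1 < ℓ.length, (ℓ[ℓ.length - 1]).2 = 0 := by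
        intro h
        have h6 : ∀ (l : List (I × ℕ)) (h7 : l = a ++ [(z, 0)]) (h8 : l.length - 1 < l.length),
            (l[l.length - 1]).2 = 0 := by
          intro l h7 h8
          subst h7
          simp
        exact h6 ℓ hz h
      have hd' := trn_dist hch i (ℓ.length - 1) hi (by omega)
      rw [hlast (by omega)] at hd'
      have h9 : |(i : ℤ) - ((ℓ.length - 1 : ℕ) : ℤ)| ≤ 6 := by
        rw [abs_le]
        omega
      simp only at hd' ⊢
      exact (hd'.trans h9).trans (by norm_num)
  · -- the output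
    have hw := hHw (sh ℓ) (by
      intro u hu
      have hu' : u = sh (ℓ.take u.length) := by
        unfold sh
        rw [List.map_take]
        exact List.prefix_iff_eq_take.1 hu
      have h6 := hpre (ℓ.take u.length) (List.take_prefix _ _)
      rw [← trn_len h1 h2, ← hu'] at h6
      have h7 : (ℓ.take u.length).length = u.length := by
        conv_rhs => rw [hu']
        unfold sh
        rw [List.length_map]
      rw [h7] at h6
      exact h6)
    rw [hw, ← trn_sh h1 h2, hℓ']
    unfold sh' sh
    rw [List.map_take, List.map_append, List.map_replicate, List.length_map]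

end Pool.Agent.R652.TF
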