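import Pool.Agent.R652.TF.Defs

/-! TF-VAL, TF-INJ (MP_7161f1_al): validity and injectivity of tapes. -/

namespace Pool.Agent.R652.TF

open List Pool.Agent.R652.CA

/-! ### validity -/

/-- a path of heights from `a` to `b` -/
def VPath (a b : ℕ) (l : List (Inf × ℕ)) : Prop :=
  l.IsChain (fun x y => |(x.2 : ℤ) - y.2| ≤ 1) ∧ (∃ i, l.head? = some (i, a)) ∧
    ∃ i, l.getLast? = some (i, b)

theorem vpath_single (i : Inf) (a : ℕ) : VPath a a [(i, a)] :=
  ⟨by simp, ⟨i, rfl⟩, ⟨i, rfl⟩⟩

theorem VPath.append {a b c d : ℕ} {l l' : List (Inf × ℕ)} (h : VPath a b l) (h' : VPath c d l')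
    (hbc : |(b : ℤ) - c| ≤ 1) : VPath a d (l ++ l') := by
  obtain ⟨h1, ⟨i, h2⟩, ⟨j, h3⟩⟩ := h
  obtain ⟨h1', ⟨i', h2'⟩, ⟨j', h3'⟩⟩ := h'
  refine ⟨?_, ⟨i, ?_⟩, ⟨j', ?_⟩⟩
  · rw [List.isChain_append]
    refine ⟨h1, h1', ?_⟩
    intro x hx y hy
    rw [h3] at hx
    rw [h2'] at hy
    simp only [Option.mem_def, Option.some.injEq] at hx hy
    subst hx hy
    exact hbc
  · rw [List.head?_append, h2]; rfl
  · rw [List.getLast?_append, h3']; rfl

theorem VPath.cons {a b c : ℕ} {l : List (Inf × ℕ)} (h : VPath b c l) (i : Inf)
    (hab : |(a : ℤ) - b| ≤ 1) : VPath a c ((i, a) :: l) :=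
  (vpath_single i a).append h hab

theorem VPath.snoc {a b c : ℕ} {l : List (Inf × ℕ)} (h : VPath a b l) (i : Inf)
    (hbc : |(b : ℤ) - c| ≤ 1) : VPath a c (l ++ [(i, c)]) :=
  h.append (vpath_single i c) hbc

theorem vpath_tour (t : CT) : ∀ d, VPath d d (tourC t d) := by
  induction t with
  | lf a b =>
    intro d
    have h1 : VPath d d ((Inf.lf, d) :: replicate b (Inf.pc, d)) := by
      induction b with
      | zero => exact vpath_single _ _
      | succ b ih =>
        rw [replicate_succ', ← cons_append]
        exact ih.snoc _ (by simp)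
    show VPath d d (replicate a (Inf.po, d) ++ (Inf.lf, d) :: replicate b (Inf.pc, d))
    induction a with
    | zero => simpa using h1
    | succ a ih =>
      rw [replicate_succ, cons_append]
      exact ih.cons _ (by simp)
  | nd l r ihl ihr =>
    intro d
    show VPath d d ((Inf.qo, d) :: (tourC l (d + 1) ++ (Inf.qm, d) ::
      (tourC r (d + 1) ++ [(Inf.qc, d)])))
    refine VPath.cons (b := d + 1) ?_ _ (by push_cast; norm_num)
    refine (ihl (d + 1)).append (c := d) ?_ (by push_cast; norm_num)
    refine VPath.cons (b := d + 1) ?_ _ (by push_cast; norm_num)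
    exact (ihr (d + 1)).snoc _ (by push_cast; norm_num)

theorem vpath_tours (L : List CT) {l : List (Inf × ℕ)} (h : VPath 0 0 l) :
    VPath 0 0 (toursC L ++ l) := by
  induction L with
  | nil => exact h
  | cons t L ih =>
    have e : toursC (t :: L) ++ l = (tourC t 0 ++ [(Inf.sep, 0)]) ++ (toursC L ++ l) := by
      simp [toursC]
    rw [e]
    exact ((vpath_tour t 0).snoc _ (by simp)).append ih (by simp)

theorem valid_c : StmValidC := by
  intro L j
  have h1 : VPath 0 0 (replicate (j + 1) (Inf.en, 0)) := by
    induction j with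
    | zero => exact vpath_single _ _
    | succ j ih =>
      rw [replicate_succ]
      exact ih.cons _ (by simp)
  have h2 : VPath 0 0 (tapeC L j) := (vpath_tours L h1).cons _ (by simp)
  refine ⟨h2.1, ?_⟩
  obtain ⟨i, hi⟩ := h2.2.2
  obtain ⟨ys, hys⟩ := List.getLast?_eq_some_iff.1 hi
  exact ⟨ys, i, hys⟩

/-! ### injectivity -/

/-- the word of informations of a tour -/
def iwV : CT → List Inf
  | CT.lf a b => replicate a Inf.po ++ Inf.lf :: replicate b Inf.pc
  | CT.nd l r => Inf.qo :: (iwV l ++ Inf.qm :: (iwV r ++ [Inf.qc]))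

theorem map_tour (t : CT) : ∀ d, (tourC t d).map Prod.fst = iwV t := by
  induction t with
  | lf a b => intro d; simp [tourC, iwV]
  | nd l r ihl ihr => intro d; simp [tourC, iwV, ihl, ihr]

/-- the word of informations of the tours -/
def tw (L : List CT) : List Inf := L.flatMap (fun t => iwV t ++ [Inf.sep])

theorem map_tours (L : List CT) : (toursC L).map Prod.fst = tw L := by
  induction L with
  | nil => rfl
  | cons t L ih =>
    have e1 : toursC (t :: L) = (tourC t 0 ++ [(Inf.sep, 0)]) ++ toursC L := by simp [toursC]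
    have e2 : tw (t :: L) = (iwV t ++ [Inf.sep]) ++ tw L := by simp [tw]
    rw [e1, e2, map_append, ih, map_append, map_tour]
    rfl

theorem rep_inj {α : Type} {x : α} : ∀ (b b' : ℕ) (u u' : List α),
    u.head? ≠ some x → u'.head? ≠ some x → replicate b x ++ u = replicate b' x ++ u' →
      b = b' ∧ u = u' := by
  intro b
  induction b with
  | zero =>
    intro b' u u' hu hu' h
    cases b' with
    | zero => exact ⟨rfl, by simpa using h⟩
    | succ b' =>
      exfalso
      rw [replicate_succ] at h
      simp only [replicate_zero, nil_append, cons_append] at h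
      rw [h] at hu
      exact hu rfl
  | succ b ih =>
    intro b' u u' hu hu' h
    cases b' with
    | zero =>
      exfalso
      rw [replicate_succ] at h
      simp only [replicate_zero, nil_append, cons_append] at h
      rw [← h] at hu'
      exact hu' rfl
    | succ b' =>
      rw [replicate_succ, replicate_succ, cons_append, cons_append] at h
      obtain ⟨h1, h2⟩ := ih b' u u' hu hu' (List.cons.inj h).2
      exact ⟨by omega, h2⟩

theorem iw_inj (t : CT) : ∀ (t' : CT) (u u' : List Inf), u.head? ≠ some Inf.pc →
    u'.head? ≠ some Inf.pc → iwV t ++ u = iwV t' ++ u' → t = t' ∧ u = u' := by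
  induction t with
  | lf a b =>
    intro t' u u' hu hu' h
    cases t' with
    | lf a' b' =>
      simp only [iwV, append_assoc, cons_append] at h
      obtain ⟨h1, h2⟩ := rep_inj a a' _ _ (by simp) (by simp) h
      obtain ⟨h3, h4⟩ := rep_inj b b' _ _ hu hu' (List.cons.inj h2).2
      exact ⟨by rw [h1, h3], h4⟩
    | nd l' r' =>
      exfalso
      simp only [iwV, append_assoc, cons_append] at h
      cases a with
      | zero => simp at h
      | succ a => rw [replicate_succ, cons_append] at h; simp at h
  | nd l r ihl ihr =>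
    intro t' u u' hu hu' h
    cases t' with
    | lf a' b' =>
      exfalso
      simp only [iwV, append_assoc, cons_append] at h
      cases a' with
      | zero => simp at h
      | succ a' => rw [replicate_succ, cons_append] at h; simp at h
    | nd l' r' =>
      simp only [iwV, append_assoc, cons_append] at h
      obtain ⟨h1, h2⟩ := ihl l' _ _ (by simp) (by simp) (List.cons.inj h).2
      obtain ⟨h3, h4⟩ := ihr r' _ _ (by simp) (by simp) (List.cons.inj h2).2
      exact ⟨by rw [h1, h3], by simpa using h4⟩

theorem iw_ne_en (t : CT) (u v : List Inf) : iwV t ++ u ≠ Inf.en :: v := by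
  intro h
  cases t with
  | lf a b =>
    cases a with
    | zero => simp [iwV] at h
    | succ a => simp [iwV, replicate_succ] at h
  | nd l r => simp [iwV] at h

theorem tw_inj (L : List CT) : ∀ L' : List CT, tw L ++ [Inf.en] = tw L' ++ [Inf.en] → L = L' := by
  induction L with
  | nil =>
    intro L' h
    cases L' with
    | nil => rfl
    | cons t' L' =>
      exfalso
      simp only [tw, flatMap_nil, nil_append, flatMap_cons, append_assoc] at h
      exact iw_ne_en _ _ _ h.symm
  | cons t L ih =>
    intro L' h
    cases L' with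
    | nil =>
      exfalso
      simp only [tw, flatMap_nil, nil_append, flatMap_cons, append_assoc] at h
      exact iw_ne_en _ _ _ h
    | cons t' L' =>
      simp only [tw, flatMap_cons, append_assoc, cons_append, nil_append] at h
      obtain ⟨h1, h2⟩ := iw_inj t t' _ _ (by simp) (by simp) h
      have h3 := ih L' (List.cons.inj h2).2
      rw [h1, h3]

theorem enc_infos {J : Type} (ℓ : List (J × ℕ)) : (enc ℓ).map Prod.fst = ℓ.map Prod.fst := by
  unfold enc
  apply List.ext_getElem
  · simp
  · intro n h1 h2
    simp [letter]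

theorem tape_inj_c : StmTapeInjC := by
  intro L L' h
  have h1 := congrArg (List.map Prod.fst) h
  rw [enc_infos, enc_infos] at h1
  simp only [tapeC, map_cons, map_append, map_tours, map_replicate] at h1
  exact tw_inj L L' (by simpa using (List.cons.inj h1).2)

end Pool.Agent.R652.TF
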